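import Mathlib

/-!
# Closed ideals of codimension two in a Banach algebra generated by a bounded group
-/

set_option autoImplicit false

namespace Pool.Agent.V5helper27.CI

open Filter Topology

variable {A : Type*} [NormedRing A] [NormedAlgebra ℂ A] {G : Type*} [Group G]

/-- continuity of functionals which factor through a finite dimensional quotient -/
lemma exists_clm (I : Submodule ℂ A) (hI : IsClosed (I : Set A)) [FiniteDimensional ℂ (A ⧸ I)]
    (l : (A ⧸ I) →ₗ[ℂ] ℂ) : ∃ L : A →L[ℂ] ℂ, ∀ f, L f = l (I.mkQ f) := by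
  haveI : IsClosed (I : Set A) := hI
  have h1 : Continuous l := l.continuous_of_finiteDimensional
  have h2 : Continuous I.mkQ := continuous_quot_mk
  exact ⟨⟨l.comp I.mkQ, h1.comp h2⟩, fun f => rfl⟩

variable (d : G →* A) (hd : ∀ x, ‖d x‖ ≤ 1)

include hd in
lemma norm_lt_of_jordan (I : Submodule ℂ A) (hI : IsClosed (I : Set A))
    (hl : ∀ f ∈ I, ∀ a, a * f ∈ I)
    [FiniteDimensional ℂ (A ⧸ I)] (y : G) (hy : I.mkQ (d y) ∉ Submodule.span ℂ {I.mkQ (1 : A)})
    (lam : ℂ) (h : d y * d y - (2 * lam) • d y + (lam ^ 2) • (1 : A) ∈ I) : ‖lam‖ < 1 := by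
  -- a functional
  obtain ⟨l, hl1, hl2⟩ : ∃ l : (A ⧸ I) →ₗ[ℂ] ℂ, l (I.mkQ (d y)) = 1 ∧ l (I.mkQ 1) = 0 := by
    obtain ⟨l, hl1, hl2⟩ := Submodule.exists_dual_map_eq_bot_of_notMem hy inferInstance
    have h3 : l (I.mkQ 1) = 0 := by
      have h4 : l (I.mkQ 1) ∈ (Submodule.span ℂ {I.mkQ (1 : A)}).map l :=
        Submodule.mem_map_of_mem (Submodule.mem_span_singleton_self _)
      rw [hl2] at h4
      exact h4
    refine ⟨(l (I.mkQ (d y)))⁻¹ • l, ?_, ?_⟩
    · simp only [LinearMap.smul_apply, smul_eq_mul]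
      exact inv_mul_cancel₀ hl1
    · simp only [LinearMap.smul_apply, h3, smul_zero]
  obtain ⟨L, hL⟩ := exists_clm I hI l
  have hLI : ∀ f ∈ I, L f = 0 := by
    intro f hf
    rw [hL]
    have : I.mkQ f = 0 := by simpa using hf
    rw [this, map_zero]
  have key : ∀ k : ℕ, d y ^ (k + 1) - (((k + 1 : ℕ) : ℂ) * lam ^ k) • d y
      + ((k : ℂ) * lam ^ (k + 1)) • (1 : A) ∈ I := by
    intro k
    induction k with
    | zero => simp
    | succ k ih =>
      have h5 := hl _ ih (d y)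
      have h6 := I.add_mem h5 (I.smul_mem (((k + 1 : ℕ) : ℂ) * lam ^ k) h)
      have h7 : d y * (d y ^ (k + 1) - (((k + 1 : ℕ) : ℂ) * lam ^ k) • d y
          + ((k : ℂ) * lam ^ (k + 1)) • (1 : A))
          + (((k + 1 : ℕ) : ℂ) * lam ^ k) • (d y * d y - (2 * lam) • d y + (lam ^ 2) • (1 : A))
          = d y ^ (k + 1 + 1) - (((k + 1 + 1 : ℕ) : ℂ) * lam ^ (k + 1)) • d y
          + (((k + 1 : ℕ) : ℂ) * lam ^ (k + 1 + 1)) • (1 : A) := by
        rw [mul_add, mul_sub, ← pow_succ', mul_smul_comm, mul_smul_comm, mul_one, smul_add,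
          smul_sub, smul_smul, smul_smul]
        push_cast
        module
      rw [h7] at h6
      exact h6
  have hval : ∀ k : ℕ, L (d y ^ (k + 1)) = ((k + 1 : ℕ) : ℂ) * lam ^ k := by
    intro k
    have h8 := hLI _ (key k)
    rw [map_add, map_sub, map_smul, map_smul] at h8
    have e1 : L (d y) = 1 := by rw [hL]; exact hl1
    have e2 : L (1 : A) = 0 := by rw [hL]; exact hl2
    rw [e1, e2, smul_eq_mul, smul_eq_mul, mul_one, mul_zero, add_zero, sub_eq_zero] at h8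
    exact h8
  by_contra hlam
  push Not at hlam
  obtain ⟨k, hk⟩ := exists_nat_gt ‖L‖
  have h9 : ‖L (d y ^ (k + 1))‖ ≤ ‖L‖ := by
    refine (L.le_opNorm _).trans ?_
    rw [← map_pow]
    have := hd (y ^ (k + 1))
    nlinarith [norm_nonneg L]
  rw [hval, norm_mul, norm_pow, Complex.norm_natCast] at h9
  have h10 : 1 ≤ ‖lam‖ ^ k := one_le_pow₀ hlam
  push_cast at h9
  nlinarith

omit [Group G] in
lemma prod_aux1 (a : A) (s l₁ l₂ : ℂ) : (s • (a - l₂ • (1 : A))) * (s • (l₁ • (1 : A) - a))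
    = (-(s * s)) • (a * a - (l₁ + l₂) • a + (l₁ * l₂) • (1 : A)) := by
  simp only [smul_mul_smul_comm, sub_mul, mul_sub, smul_mul_assoc, mul_smul_comm, one_mul, mul_one,
    smul_smul]
  module

omit [Group G] in
lemma prod_aux2 (a : A) (s l₁ l₂ : ℂ) : (s • (l₁ • (1 : A) - a)) * (s • (a - l₂ • (1 : A)))
    = (-(s * s)) • (a * a - (l₁ + l₂) • a + (l₁ * l₂) • (1 : A)) := by
  simp only [smul_mul_smul_comm, sub_mul, mul_sub, smul_mul_assoc, mul_smul_comm, one_mul, mul_one,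
    smul_smul]
  module

include hd in
theorem struct (hdense : ∀ K : Submodule ℂ A, IsClosed (K : Set A) → (∀ x, d x ∈ K) → K = ⊤)
    (I : Submodule ℂ A) (hI : IsClosed (I : Set A)) (hl : ∀ f ∈ I, ∀ a, a * f ∈ I)
    (hr : ∀ f ∈ I, ∀ a, f * a ∈ I) (h2 : Module.finrank ℂ (A ⧸ I) = 2) :
    ∃ χ₁ χ₂ : A →L[ℂ] ℂ, (∀ f g, χ₁ (f * g) = χ₁ f * χ₁ g) ∧ (∀ f g, χ₂ (f * g) = χ₂ f * χ₂ g) ∧
      χ₁ 1 = 1 ∧ χ₂ 1 = 1 ∧ (∀ f, f ∈ I ↔ χ₁ f = 0 ∧ χ₂ f = 0) ∧ ∃ x, χ₁ (d x) ≠ χ₂ (d x) := by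
  haveI hfin : FiniteDimensional ℂ (A ⧸ I) := Module.finite_of_finrank_pos (by rw [h2]; norm_num)
  haveI hIc : IsClosed (I : Set A) := hI
  set q := I.mkQ with hq
  have hq0 : ∀ f, q f = 0 ↔ f ∈ I := fun f => by simp [hq]
  have hq1 : q 1 ≠ 0 := by
    intro h
    have h1 : (1 : A) ∈ I := (hq0 1).mp h
    have h3 : I = ⊤ := by
      rw [eq_top_iff]
      intro f _
      have := hl 1 h1 f
      rwa [mul_one] at this
    have h4 : Subsingleton (A ⧸ I) := Submodule.Quotient.subsingleton_iff.mpr h3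
    have h5 : Module.finrank ℂ (A ⧸ I) = 0 := Module.finrank_zero_of_subsingleton
    omega
  obtain ⟨x₀, hx₀⟩ : ∃ x, q (d x) ∉ Submodule.span ℂ {q 1} := by
    by_contra hcon
    push Not at hcon
    have hcont : Continuous q := continuous_quot_mk
    have hcl : IsClosed ((Submodule.comap q (Submodule.span ℂ {q 1}) : Submodule ℂ A) : Set A) :=
      (Submodule.closed_of_finiteDimensional (Submodule.span ℂ {q 1})).preimage hcont
    have h3 := hdense _ hcl fun x => hcon x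
    have h4 : Submodule.span ℂ {q 1} = ⊤ := by
      rw [eq_top_iff]
      intro z _
      obtain ⟨f, rfl⟩ := I.mkQ_surjective z
      have : f ∈ Submodule.comap q (Submodule.span ℂ {q 1}) := by rw [h3]; trivial
      exact this
    have h5 : Module.finrank ℂ (A ⧸ I) ≤ 1 := by
      rw [← finrank_top ℂ (A ⧸ I), ← h4]
      exact (finrank_span_le_card _).trans (by simp)
    omega
  set a := d x₀ with ha
  -- q 1, q a is a basis
  have hli : LinearIndependent ℂ ![q 1, q a] := by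
    rw [LinearIndependent.pair_iff' hq1]
    intro c hc
    exact hx₀ (hc ▸ Submodule.smul_mem _ c (Submodule.mem_span_singleton_self _))
  have hspan : Submodule.span ℂ (Set.range ![q 1, q a]) = ⊤ :=
    hli.span_eq_top_of_card_eq_finrank (by simp [h2])
  have hrep : ∀ z : A ⧸ I, ∃ s t : ℂ, z = s • q 1 + t • q a := by
    intro z
    have hz : z ∈ Submodule.span ℂ (Set.range ![q 1, q a]) := by rw [hspan]; trivial
    rw [Matrix.range_cons, Matrix.range_cons, Matrix.range_empty, Set.union_empty,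
      Set.singleton_union, Submodule.mem_span_pair] at hz
    obtain ⟨s, t, hst⟩ := hz
    exact ⟨s, t, hst.symm⟩
  obtain ⟨β, α, hαβ⟩ := hrep (q (a * a))
  obtain ⟨s, hs⟩ := IsAlgClosed.exists_pow_nat_eq (α ^ 2 + 4 * β) (n := 2) (by norm_num)
  set l₁ := (α + s) / 2 with hl₁
  set l₂ := (α - s) / 2 with hl₂
  have hsum : l₁ + l₂ = α := by rw [hl₁, hl₂]; ring
  have hprod : l₁ * l₂ = -β := by
    rw [hl₁, hl₂]
    linear_combination (-1 / 4 : ℂ) * hs
  have hquad : a * a - (l₁ + l₂) • a + (l₁ * l₂) • (1 : A) ∈ I := by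
    rw [← hq0, map_add, map_sub, map_smul, map_smul, hαβ, hsum, hprod]
    module
  have hne : l₁ ≠ l₂ := by
    intro heq
    have h3 : ‖l₁‖ < 1 := by
      refine norm_lt_of_jordan d hd I hI hl x₀ hx₀ l₁ ?_
      have := hquad
      rw [← heq] at this
      have e : a * a - (2 * l₁) • a + (l₁ ^ 2) • (1 : A)
          = a * a - (l₁ + l₁) • a + (l₁ * l₁) • (1 : A) := by
        rw [two_mul, sq]
      rw [← ha, e]
      exact this
    set b := d x₀⁻¹ with hb
    have hab : a * b = 1 := by rw [ha, hb, ← map_mul, mul_inv_cancel, map_one]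
    have hba : b * a = 1 := by rw [ha, hb, ← map_mul, inv_mul_cancel, map_one]
    have hl0 : l₁ ≠ 0 := by
      intro h0
      have h4 := hquad
      rw [← heq, h0] at h4
      simp only [add_zero, zero_smul, sub_zero, mul_zero] at h4
      have h5 := hl _ (hl _ h4 b) b
      have h6 : b * (b * (a * a)) = 1 := by
        rw [← mul_assoc b a a, hba, one_mul, hba]
      rw [h6] at h5
      exact hq1 ((hq0 1).mpr h5)
    have h7 : ‖l₁⁻¹‖ < 1 := by
      refine norm_lt_of_jordan d hd I hI hl x₀⁻¹ ?_ l₁⁻¹ ?_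
      · intro hmem
        obtain ⟨c, hc⟩ := Submodule.mem_span_singleton.mp hmem
        have hc2 : b - c • (1 : A) ∈ I := by
          rw [← hq0, map_sub, map_smul, hc, sub_self]
        have h8 := hr _ hc2 a
        have h9 : (b - c • (1 : A)) * a = 1 - c • a := by
          rw [sub_mul, hba, smul_mul_assoc, one_mul]
        rw [h9, ← hq0, map_sub, map_smul, sub_eq_zero] at h8
        have hc0 : c ≠ 0 := by
          rintro rfl
          rw [zero_smul] at h8
          exact hq1 h8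
        apply hx₀
        rw [Submodule.mem_span_singleton]
        refine ⟨c⁻¹, ?_⟩
        rw [h8, smul_smul, inv_mul_cancel₀ hc0, one_smul]
      · have h8 := hl _ (hl _ hquad b) b
        rw [← heq] at h8
        have h9 : b * (b * (a * a - (l₁ + l₁) • a + (l₁ * l₁) • (1 : A)))
            = 1 - (l₁ + l₁) • b + (l₁ * l₁) • (b * b) := by
          rw [mul_add, mul_sub, mul_add, mul_sub, mul_smul_comm, mul_smul_comm, mul_smul_comm,
            mul_smul_comm, ← mul_assoc b a a, hba, one_mul, hba, mul_one]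
        rw [h9] at h8
        have h10 := I.smul_mem ((l₁ * l₁)⁻¹) h8
        have h11 : (l₁ * l₁)⁻¹ • (1 - (l₁ + l₁) • b + (l₁ * l₁) • (b * b))
            = b * b - (2 * l₁⁻¹) • b + (l₁⁻¹ ^ 2) • (1 : A) := by
          rw [smul_add, smul_sub, smul_smul, smul_smul, inv_mul_cancel₀ (mul_ne_zero hl0 hl0),
            one_smul]
          have e1 : (l₁ * l₁)⁻¹ * (l₁ + l₁) = 2 * l₁⁻¹ := by field_simp; norm_num
          have e2 : (l₁ * l₁)⁻¹ = l₁⁻¹ ^ 2 := by rw [mul_inv, sq]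
          rw [e1, e2]
          abel
        rw [h11] at h10
        exact h10
    rw [norm_inv] at h7
    have h8 : 0 < ‖l₁‖ := norm_pos_iff.mpr hl0
    have h9 : 1 < ‖l₁‖⁻¹ := (one_lt_inv₀ h8).mpr h3
    linarith
  -- the idempotents
  have hd0 : l₁ - l₂ ≠ 0 := sub_ne_zero.mpr hne
  set e₁ : A := (l₁ - l₂)⁻¹ • (a - l₂ • (1 : A)) with he₁
  set e₂ : A := (l₁ - l₂)⁻¹ • (l₁ • (1 : A) - a) with he₂
  have hone : e₁ + e₂ = 1 := by
    rw [he₁, he₂, ← smul_add]
    have : a - l₂ • (1 : A) + (l₁ • (1 : A) - a) = (l₁ - l₂) • (1 : A) := by module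
    rw [this, smul_smul, inv_mul_cancel₀ hd0, one_smul]
  have haa : a = l₁ • e₁ + l₂ • e₂ := by
    rw [he₁, he₂, smul_smul, smul_smul]
    have : (l₁ * (l₁ - l₂)⁻¹) • (a - l₂ • (1 : A)) + (l₂ * (l₁ - l₂)⁻¹) • (l₁ • (1 : A) - a)
        = ((l₁ - l₂) * (l₁ - l₂)⁻¹) • a := by
      module
    rw [this, mul_inv_cancel₀ hd0, one_smul]
  have h12 : e₁ * e₂ ∈ I := by
    rw [he₁, he₂, prod_aux1]
    exact I.smul_mem _ hquad
  have h21 : e₂ * e₁ ∈ I := by
    rw [he₁, he₂, prod_aux2]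
    exact I.smul_mem _ hquad
  clear_value e₁ e₂
  have hqa : q a = l₁ • q e₁ + l₂ • q e₂ := by rw [← map_smul, ← map_smul, ← map_add, ← haa]
  have hqone : q 1 = q e₁ + q e₂ := by rw [← map_add, hone]
  have hspan2 : Submodule.span ℂ (Set.range ![q e₁, q e₂]) = ⊤ := by
    rw [eq_top_iff]
    intro z _
    obtain ⟨s, t, rfl⟩ := hrep z
    rw [Matrix.range_cons, Matrix.range_cons, Matrix.range_empty, Set.union_empty,
      Set.singleton_union, Submodule.mem_span_pair]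
    refine ⟨s + t * l₁, s + t * l₂, ?_⟩
    rw [hqone, hqa]
    module
  have hli2 : LinearIndependent ℂ ![q e₁, q e₂] :=
    linearIndependent_of_top_le_span_of_card_eq_finrank hspan2.ge (by simp [h2])
  let B : Module.Basis (Fin 2) ℂ (A ⧸ I) := Module.Basis.mk hli2 hspan2.ge
  have hB0 : B 0 = q e₁ := by simp [B]
  have hB1 : B 1 = q e₂ := by simp [B]
  obtain ⟨χ₁, hχ₁⟩ := exists_clm I hI (B.coord 0)
  obtain ⟨χ₂, hχ₂⟩ := exists_clm I hI (B.coord 1)
  have hdec : ∀ f, q f = χ₁ f • q e₁ + χ₂ f • q e₂ := by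
    intro f
    rw [hχ₁, hχ₂, ← hB0, ← hB1]
    have := B.sum_repr (q f)
    rw [Fin.sum_univ_two] at this
    exact this.symm
  have huniq : ∀ f (s t : ℂ), q f = s • q e₁ + t • q e₂ → χ₁ f = s ∧ χ₂ f = t := by
    intro f s t hf
    have h3 : B.coord 0 (q f) = s := by
      rw [hf, ← hB0, ← hB1]; simp
    have h4 : B.coord 1 (q f) = t := by
      rw [hf, ← hB0, ← hB1]; simp
    exact ⟨by rw [hχ₁]; exact h3, by rw [hχ₂]; exact h4⟩
  have hmul : ∀ f g, χ₁ (f * g) = χ₁ f * χ₁ g ∧ χ₂ (f * g) = χ₂ f * χ₂ g := by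
    intro f g
    apply huniq
    have hf : f - (χ₁ f • e₁ + χ₂ f • e₂) ∈ I := by
      rw [← hq0, map_sub, map_add, map_smul, map_smul, ← hdec, sub_self]
    have hg : g - (χ₁ g • e₁ + χ₂ g • e₂) ∈ I := by
      rw [← hq0, map_sub, map_add, map_smul, map_smul, ← hdec, sub_self]
    have h3 : f * g - (χ₁ f • e₁ + χ₂ f • e₂) * (χ₁ g • e₁ + χ₂ g • e₂) ∈ I := by
      have e : f * g - (χ₁ f • e₁ + χ₂ f • e₂) * (χ₁ g • e₁ + χ₂ g • e₂)
          = (f - (χ₁ f • e₁ + χ₂ f • e₂)) * g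
            + (χ₁ f • e₁ + χ₂ f • e₂) * (g - (χ₁ g • e₁ + χ₂ g • e₂)) := by
        rw [sub_mul, mul_sub]; abel
      rw [e]
      exact I.add_mem (hr _ hf _) (hl _ hg _)
    have h11 : e₁ * e₁ - e₁ ∈ I := by
      have : e₁ * e₁ - e₁ = -(e₁ * e₂) := by
        have h4 : e₁ = e₁ * (e₁ + e₂) := by rw [hone, mul_one]
        rw [mul_add] at h4
        have h5 : e₁ * e₁ - e₁ = e₁ * e₁ - (e₁ * e₁ + e₁ * e₂) := by rw [← h4]
        rw [h5]; abel
      rw [this]; exact I.neg_mem h12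
    have h22 : e₂ * e₂ - e₂ ∈ I := by
      have : e₂ * e₂ - e₂ = -(e₂ * e₁) := by
        have h4 : e₂ = e₂ * (e₁ + e₂) := by rw [hone, mul_one]
        rw [mul_add] at h4
        have h5 : e₂ * e₂ - e₂ = e₂ * e₂ - (e₂ * e₁ + e₂ * e₂) := by rw [← h4]
        rw [h5]; abel
      rw [this]; exact I.neg_mem h21
    have h4 : (χ₁ f • e₁ + χ₂ f • e₂) * (χ₁ g • e₁ + χ₂ g • e₂)
        - ((χ₁ f * χ₁ g) • e₁ + (χ₂ f * χ₂ g) • e₂) ∈ I := by
      have e : (χ₁ f • e₁ + χ₂ f • e₂) * (χ₁ g • e₁ + χ₂ g • e₂)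
          - ((χ₁ f * χ₁ g) • e₁ + (χ₂ f * χ₂ g) • e₂)
          = (χ₁ f * χ₁ g) • (e₁ * e₁ - e₁) + (χ₂ f * χ₂ g) • (e₂ * e₂ - e₂)
            + (χ₁ f * χ₂ g) • (e₁ * e₂) + (χ₂ f * χ₁ g) • (e₂ * e₁) := by
        rw [add_mul, mul_add, mul_add, smul_mul_smul_comm, smul_mul_smul_comm,
          smul_mul_smul_comm, smul_mul_smul_comm]
        module
      rw [e]
      exact I.add_mem (I.add_mem (I.add_mem (I.smul_mem _ h11) (I.smul_mem _ h22))
        (I.smul_mem _ h12)) (I.smul_mem _ h21)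
    have h5 := I.add_mem h3 h4
    rw [← hq0, map_add, map_sub, map_sub] at h5
    have h6 : q (f * g) = q ((χ₁ f * χ₁ g) • e₁ + (χ₂ f * χ₂ g) • e₂) := by
      have h7 : q (f * g) - q ((χ₁ f * χ₁ g) • e₁ + (χ₂ f * χ₂ g) • e₂) = 0 := by
        rw [← h5]; abel
      exact sub_eq_zero.mp h7
    rw [h6, map_add, map_smul, map_smul]
  have hχ1 : χ₁ 1 = 1 ∧ χ₂ 1 = 1 := huniq 1 1 1 (by rw [one_smul, one_smul, hqone])
  refine ⟨χ₁, χ₂, fun f g => (hmul f g).1, fun f g => (hmul f g).2, hχ1.1, hχ1.2, ?_, x₀, ?_⟩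
  · intro f
    rw [← hq0]
    constructor
    · intro h
      exact huniq f 0 0 (by rw [h, zero_smul, zero_smul, add_zero])
    · rintro ⟨h3, h4⟩
      rw [hdec f, h3, h4, zero_smul, zero_smul, add_zero]
  · obtain ⟨h3, h4⟩ := huniq a l₁ l₂ hqa
    rw [← ha, h3, h4]
    exact hne

end Pool.Agent.V5helper27.CI
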