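import Pool.Agent.V5helper27.CI.Chars
import Pool.Agent.V5helper27.CI.Struct

/-!
# Closed ideals of codimension two in `ℓ¹(G)`, `G` countable, are idempotent
-/

set_option autoImplicit false

namespace Pool.Agent.V5helper27.CI

open Filter Topology H937R3

/-- a strictly positive probability on a countable set -/
lemma exists_prob (G : Type*) [Countable G] [Nonempty G] :
    ∃ μ : G → ℝ, Summable μ ∧ (∀ x, 0 < μ x) ∧ ∑' x, μ x = 1 := by
  classical
  obtain ⟨e, he⟩ := exists_injective_nat G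
  have h1 : Summable fun x : G => (1 / 2 : ℝ) ^ (e x) :=
    (summable_geometric_of_lt_one (by norm_num) (by norm_num : (1 / 2 : ℝ) < 1)).comp_injective he
  have h2 : ∀ x : G, 0 < (1 / 2 : ℝ) ^ (e x) := fun x => by positivity
  have h3 : 0 < ∑' x : G, (1 / 2 : ℝ) ^ (e x) :=
    h1.tsum_pos (fun x => (h2 x).le) (Classical.arbitrary G) (h2 _)
  refine ⟨fun x => (1 / 2 : ℝ) ^ (e x) / ∑' x : G, (1 / 2 : ℝ) ^ (e x), h1.div_const _,
    fun x => div_pos (h2 x) h3, ?_⟩
  rw [tsum_div_const, div_self h3.ne']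

/-- The point masses as a monoid homomorphism. -/
noncomputable def dl (G : Type*) [DecidableEq G] [Group G] : G →* EllOne G where
  toFun x := EllOne.delta x
  map_one' := rfl
  map_mul' x y := (EllOne.delta_mul_delta x y).symm

section

variable {G : Type*} [DecidableEq G] [Group G]

lemma tsum_delta (f : L1 G) : HasSum (fun x => f x • (L1.delta x : L1 G)) f := by
  have h1 : Summable fun x => f x • (L1.delta x : L1 G) :=
    L1.summable_lift (fun x => (L1.delta x : L1 G)) 1 (fun x => (L1.norm_delta x).le) f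
  have h2 : L1.lift (fun x => (L1.delta x : L1 G)) 1 (fun x => (L1.norm_delta x).le)
      = ContinuousLinearMap.id ℂ (L1 G) := by
    refine L1.clm_ext fun x => ?_
    rw [L1.lift_delta]
    rfl
  have h3 : ∑' x, f x • (L1.delta x : L1 G) = f := by
    have := congrArg (fun T : L1 G →L[ℂ] L1 G => T f) h2
    exact this
  have h4 := h1.hasSum
  rw [h3] at h4
  exact h4

lemma dense_delta (K : Submodule ℂ (EllOne G)) (hK : IsClosed (K : Set (EllOne G)))
    (h : ∀ x, EllOne.delta x ∈ K) : K = ⊤ := by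
  rw [eq_top_iff]
  intro f _
  have h1 : Tendsto (fun s : Finset G => ofL1 (∑ x ∈ s, (toL1 f) x • (L1.delta x : L1 G))) atTop
      (𝓝 f) := tsum_delta (toL1 f)
  refine hK.mem_of_tendsto h1 (Eventually.of_forall fun s => ?_)
  rw [ofL1_sum]
  exact K.sum_mem fun x _ => by rw [ofL1_smul]; exact K.smul_mem _ (h x)

end

lemma unimod {G : Type*} [Group G] (φ : G →* ℂ) (C : ℝ) (h : ∀ x, ‖φ x‖ ≤ C) (x : G) :
    ‖φ x‖ = 1 := by
  have hle : ∀ y, ‖φ y‖ ≤ 1 := by
    intro y
    by_contra hcon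
    push Not at hcon
    obtain ⟨n, hn⟩ := pow_unbounded_of_one_lt C hcon
    have := h (y ^ n)
    rw [map_pow, norm_pow] at this
    linarith
  have h1 : ‖φ x‖ * ‖φ x⁻¹‖ = 1 := by
    rw [← norm_mul, ← map_mul, mul_inv_cancel, map_one, norm_one]
  have h2 := hle x
  have h3 := hle x⁻¹
  have h4 := norm_nonneg (φ x)
  nlinarith

/-- every closed two-sided ideal of codimension two in `ℓ¹(G)` is spanned by the products of its
elements -/
theorem codim_two (G : Type*) [Group G] [Countable G] :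
    ∀ I : Submodule ℂ (lp (fun _ : G => ℂ) 1),
      IsClosed (I : Set (lp (fun _ : G => ℂ) 1)) →
      (∀ f ∈ I, ∀ g h : lp (fun _ : G => ℂ) 1,
        ((∀ x : G, h x = ∑' y : G, f y * g (y⁻¹ * x)) → h ∈ I) ∧
        ((∀ x : G, h x = ∑' y : G, g y * f (y⁻¹ * x)) → h ∈ I)) →
      Module.finrank ℂ ((lp (fun _ : G => ℂ) 1) ⧸ I) = 2 →
      Submodule.span ℂ
        {h : lp (fun _ : G => ℂ) 1 |
          ∃ a ∈ I, ∃ b ∈ I, ∀ x : G,
            h x = ∑' y : G, a y * b (y⁻¹ * x)} = I := by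
  classical
  intro I hI hideal hrank
  apply le_antisymm
  · rw [Submodule.span_le]
    rintro h ⟨a, ha, b, hb, hab⟩
    exact (hideal a ha b h).1 hab
  -- the ideal in the Banach algebra
  let I' : Submodule ℂ (EllOne G) := I
  have hI' : IsClosed (I' : Set (EllOne G)) := hI
  have hl : ∀ f ∈ I', ∀ a : EllOne G, a * f ∈ I' := fun f hf a =>
    (hideal f hf a (a * f)).2 fun x => rfl
  have hr : ∀ f ∈ I', ∀ a : EllOne G, f * a ∈ I' := fun f hf a =>
    (hideal f hf a (f * a)).1 fun x => rfl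
  obtain ⟨χ₁, χ₂, hm1, hm2, ho1, ho2, hmem, x₀, hx₀⟩ := struct (A := EllOne G) (dl G)
    (fun x => (EllOne.norm_delta x).le) dense_delta I' hI' hl hr hrank
  let φ₁ : G →* ℂ :=
    { toFun := fun x => χ₁ (EllOne.delta x)
      map_one' := ho1
      map_mul' := fun x y => by rw [← EllOne.delta_mul_delta, hm1] }
  let φ₂ : G →* ℂ :=
    { toFun := fun x => χ₂ (EllOne.delta x)
      map_one' := ho2
      map_mul' := fun x y => by rw [← EllOne.delta_mul_delta, hm2] }
  have hφ₁ : ∀ x, ‖φ₁ x‖ = 1 := by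
    obtain ⟨C, -, hC⟩ := χ₁.bound
    refine unimod φ₁ C fun x => ?_
    have h1 := hC (EllOne.delta x)
    rw [EllOne.norm_delta, mul_one] at h1
    exact h1
  have hφ₂ : ∀ x, ‖φ₂ x‖ = 1 := by
    obtain ⟨C, -, hC⟩ := χ₂.bound
    refine unimod φ₂ C fun x => ?_
    have h1 := hC (EllOne.delta x)
    rw [EllOne.norm_delta, mul_one] at h1
    exact h1
  have hne : φ₁ ≠ φ₂ := by
    intro h
    exact hx₀ (DFunLike.congr_fun h x₀)
  have hc1 : ∀ f : EllOne G, χ₁ f = chi φ₁ f := by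
    intro f
    have h1 := (tsum_delta (toL1 f)).mapL (χ₁ : L1 G →L[ℂ] ℂ)
    have h2 := h1.tsum_eq
    rw [← show _ = χ₁ f from h2]
    unfold chi
    refine tsum_congr fun x => ?_
    have h3 : χ₁ (EllOne.coeff f x • (EllOne.delta x : EllOne G)) = EllOne.coeff f x * φ₁ x := by
      rw [map_smul]
      rfl
    exact h3
  have hc2 : ∀ f : EllOne G, χ₂ f = chi φ₂ f := by
    intro f
    have h1 := (tsum_delta (toL1 f)).mapL (χ₂ : L1 G →L[ℂ] ℂ)
    have h2 := h1.tsum_eq
    rw [← show _ = χ₂ f from h2]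
    unfold chi
    refine tsum_congr fun x => ?_
    have h3 : χ₂ (EllOne.coeff f x • (EllOne.delta x : EllOne G)) = EllOne.coeff f x * φ₂ x := by
      rw [map_smul]
      rfl
    exact h3
  obtain ⟨μ, hs, hpos, hsum⟩ := exists_prob G
  have hidem := inf_idem hs hpos hsum hφ₁ hφ₂ hne
  intro f hf
  have hfK : f ∈ Ker hφ₁ ⊓ Ker hφ₂ := by
    have h1 := (hmem f).mp hf
    refine ⟨?_, ?_⟩
    · exact (hc1 f).symm.trans h1.1
    · exact (hc2 f).symm.trans h1.2
  have hKI : ∀ a : EllOne G, a ∈ Ker hφ₁ ⊓ Ker hφ₂ → a ∈ I := by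
    intro a ha
    refine (hmem a).mpr ⟨?_, ?_⟩
    · rw [hc1]; exact ha.1
    · rw [hc2]; exact ha.2
  let S : Submodule ℂ (EllOne G) := Submodule.span ℂ
        {h : lp (fun _ : G => ℂ) 1 |
          ∃ a ∈ I, ∃ b ∈ I, ∀ x : G,
            h x = ∑' y : G, a y * b (y⁻¹ * x)}
  have hle : (Ker hφ₁ ⊓ Ker hφ₂) * (Ker hφ₁ ⊓ Ker hφ₂) ≤ S :=
    Submodule.mul_le.mpr fun a ha b hb =>
      Submodule.subset_span ⟨a, hKI a ha, b, hKI b hb, fun x => rfl⟩
  exact hle (hidem hfK)

end Pool.Agent.V5helper27.CI
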