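import Pool.Agent.V5helper27.CI.Decomp

/-!
# Kernels of characters of `ℓ¹(G)` and their products
-/

set_option autoImplicit false

namespace Pool.Agent.V5helper27.CI

open Filter Topology H937R3

section Generic

variable {A : Type*} [NormedRing A] [NormedAlgebra ℂ A]

/-- the algebraic part of the argument -/
theorem idem (K₁ K₂ : Submodule ℂ A) (h11 : K₁ ≤ K₁ * K₁) (h22 : K₂ ≤ K₂ * K₂)
    (h12 : K₁ ⊓ K₂ ≤ K₁ * K₂) (h21 : K₁ ⊓ K₂ ≤ K₂ * K₁)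
    (h12' : K₁ * K₂ ≤ K₁ ⊓ K₂) (h21' : K₂ * K₁ ≤ K₁ ⊓ K₂) :
    K₁ ⊓ K₂ ≤ (K₁ ⊓ K₂) * (K₁ ⊓ K₂) := by
  calc K₁ ⊓ K₂ ≤ K₁ * K₂ := h12
    _ ≤ K₁ * (K₂ * K₂) := by gcongr
    _ = (K₁ * K₂) * K₂ := (mul_assoc _ _ _).symm
    _ ≤ (K₁ ⊓ K₂) * K₂ := by gcongr
    _ ≤ (K₂ * K₁) * K₂ := by gcongr
    _ ≤ (K₂ * (K₁ * K₁)) * K₂ := by gcongr
    _ = (K₂ * K₁) * (K₁ * K₂) := by simp only [mul_assoc]
    _ ≤ (K₁ ⊓ K₂) * (K₁ ⊓ K₂) := by gcongr

end Generic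

variable {G : Type*} [DecidableEq G] [Group G]

/-- the character of `ℓ¹(G)` attached to a character of `G` -/
noncomputable def chi (φ : G →* ℂ) (f : EllOne G) : ℂ := ∑' x, EllOne.coeff f x * φ x

lemma chi_summable {φ : G →* ℂ} (hφ : ∀ x, ‖φ x‖ = 1) (f : EllOne G) :
    Summable fun x => ‖EllOne.coeff f x * φ x‖ := by
  refine (summable_coeff f).congr fun x => ?_
  rw [norm_mul, hφ, mul_one]

lemma chi_add {φ : G →* ℂ} (hφ : ∀ x, ‖φ x‖ = 1) (f h : EllOne G) :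
    chi φ (f + h) = chi φ f + chi φ h := by
  unfold chi
  rw [← (chi_summable hφ f).of_norm.tsum_add (chi_summable hφ h).of_norm]
  refine tsum_congr fun x => ?_
  rw [coeff_add, add_mul]

lemma chi_sub {φ : G →* ℂ} (hφ : ∀ x, ‖φ x‖ = 1) (f h : EllOne G) :
    chi φ (f - h) = chi φ f - chi φ h := by
  unfold chi
  rw [← (chi_summable hφ f).of_norm.tsum_sub (chi_summable hφ h).of_norm]
  refine tsum_congr fun x => ?_
  rw [coeff_sub, sub_mul]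

lemma chi_smul {φ : G →* ℂ} (c : ℂ) (f : EllOne G) : chi φ (c • f) = c * chi φ f := by
  unfold chi
  rw [← tsum_mul_left]
  refine tsum_congr fun x => ?_
  rw [coeff_smul, mul_assoc]

lemma norm_chi_le {φ : G →* ℂ} (hφ : ∀ x, ‖φ x‖ = 1) (f : EllOne G) : ‖chi φ f‖ ≤ ‖f‖ := by
  unfold chi
  refine (norm_tsum_le_tsum_norm (chi_summable hφ f)).trans ?_
  rw [EllOne.norm_eq]
  refine (tsum_congr fun x => ?_).le
  rw [norm_mul, hφ, mul_one]

lemma chi_mul {φ : G →* ℂ} (hφ : ∀ x, ‖φ x‖ = 1) (f h : EllOne G) :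
    chi φ (f * h) = chi φ f * chi φ h := by
  unfold chi
  rw [← cv_tsum (chi_summable hφ f) (chi_summable hφ h)]
  refine tsum_congr fun u => ?_
  unfold cv
  rw [EllOne.conv_apply, ← tsum_mul_right]
  refine tsum_congr fun x => ?_
  have h1 : φ u = φ x * φ (x⁻¹ * u) := by rw [← map_mul]; congr 1; group
  rw [h1]
  ring

lemma chi_one (φ : G →* ℂ) : chi φ (1 : EllOne G) = 1 := by
  unfold chi
  rw [tsum_eq_single 1]
  · rw [coeff_one, if_pos rfl, map_one, mul_one]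
  · intro x hx
    rw [coeff_one, if_neg hx, zero_mul]

lemma chi_pow {φ : G →* ℂ} (hφ : ∀ x, ‖φ x‖ = 1) (f : EllOne G) (k : ℕ) :
    chi φ (f ^ k) = chi φ f ^ k := by
  induction k with
  | zero => rw [pow_zero, pow_zero, chi_one]
  | succ k ih => rw [pow_succ, pow_succ, chi_mul hφ, ih]

lemma chi_tendsto {φ : G →* ℂ} (hφ : ∀ x, ‖φ x‖ = 1) {u : ℕ → EllOne G} {f : EllOne G}
    (h : Tendsto u atTop (𝓝 f)) : Tendsto (fun n => chi φ (u n)) atTop (𝓝 (chi φ f)) := by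
  rw [tendsto_iff_norm_sub_tendsto_zero] at h ⊢
  refine squeeze_zero (fun _ => norm_nonneg _) (fun n => ?_) h
  rw [← chi_sub hφ]
  exact norm_chi_le hφ _

/-- the kernel of the character -/
noncomputable def Ker {φ : G →* ℂ} (hφ : ∀ x, ‖φ x‖ = 1) : Submodule ℂ (EllOne G) where
  carrier := {f | chi φ f = 0}
  add_mem' := by
    intro a b ha hb
    change chi φ (a + b) = 0
    rw [chi_add hφ, show chi φ a = 0 from ha, show chi φ b = 0 from hb, add_zero]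
  zero_mem' := by
    change chi φ 0 = 0
    unfold chi
    simp [coeff_zero]
  smul_mem' := by
    intro c a ha
    change chi φ (c • a) = 0
    have := chi_smul (φ := φ) c a
    rw [show chi φ a = 0 from ha, mul_zero] at this
    exact this

lemma mem_Ker {φ : G →* ℂ} {hφ : ∀ x, ‖φ x‖ = 1} {f : EllOne G} :
    f ∈ Ker hφ ↔ chi φ f = 0 := Iff.rfl

lemma isClosed_Ker {φ : G →* ℂ} (hφ : ∀ x, ‖φ x‖ = 1) :
    IsClosed (Ker hφ : Set (EllOne G)) := by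
  refine isClosed_of_closure_subset fun f hf => ?_
  change chi φ f = 0
  by_contra hne
  obtain ⟨f', hf', hd⟩ := Metric.mem_closure_iff.mp hf ‖chi φ f‖ (norm_pos_iff.mpr hne)
  have h1 : chi φ f' = 0 := hf'
  have h2 := norm_chi_le hφ (f - f')
  rw [chi_sub hφ, h1, sub_zero] at h2
  rw [dist_eq_norm] at hd
  linarith

lemma Ker_mul_right {φ : G →* ℂ} (hφ : ∀ x, ‖φ x‖ = 1) (f : EllOne G) (hf : f ∈ Ker hφ)
    (a : EllOne G) : f * a ∈ Ker hφ := by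
  rw [mem_Ker] at hf ⊢
  rw [chi_mul hφ, hf, zero_mul]

lemma Ker_mul_left {φ : G →* ℂ} (hφ : ∀ x, ‖φ x‖ = 1) (f : EllOne G) (hf : f ∈ Ker hφ)
    (a : EllOne G) : a * f ∈ Ker hφ := by
  rw [mem_Ker] at hf ⊢
  rw [chi_mul hφ, hf, mul_zero]

/-- the twisted measure has character value `1` -/
lemma chi_tw {μ : G → ℝ} (hs : Summable μ) (h0 : ∀ x, 0 ≤ μ x) (h1 : ∑' x, μ x = 1)
    {φ : G →* ℂ} (hφ : ∀ x, ‖φ x‖ = 1) : chi φ (tw μ φ (tw_summable hs h0 hφ)) = 1 := by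
  unfold chi tw
  rw [← Complex.ofReal_one, ← h1, Complex.ofReal_tsum]
  refine tsum_congr fun x => ?_
  rw [coeff_el, mul_assoc, conj_mul_self (hφ x), mul_one]

lemma one_sub_pow_mem {ν : EllOne G} {φ : G →* ℂ} (hφ : ∀ x, ‖φ x‖ = 1) (h : chi φ ν = 1) (k : ℕ) :
    1 - ν ^ k ∈ Ker hφ := by
  rw [mem_Ker, chi_sub hφ, chi_one, chi_pow hφ, h, one_pow, sub_self]

lemma chi_avg {ν : EllOne G} {φ : G →* ℂ} (hφ : ∀ x, ‖φ x‖ = 1) (h : chi φ ν = 1) (n : ℕ) :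
    chi φ (avg ν n) = 1 := by
  have h1 : chi φ (1 - avg ν n) = 0 := one_sub_avg_mem (Ker hφ) ν (one_sub_pow_mem hφ h) n
  rw [chi_sub hφ, chi_one] at h1
  exact (sub_eq_zero.mp h1).symm

lemma JR_le {ν : EllOne G} {φ : G →* ℂ} (hφ : ∀ x, ‖φ x‖ = 1) (h : chi φ ν = 1) :
    JR ν ≤ Ker hφ := by
  intro f hf
  have h1 := chi_tendsto hφ (mem_JR.mp hf)
  have h2 : ∀ n, chi φ (f * avg ν n) = chi φ f := by
    intro n; rw [chi_mul hφ, chi_avg hφ h, mul_one]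
  simp only [h2] at h1
  have h3 : chi φ (0 : EllOne G) = 0 := (Ker hφ).zero_mem
  rw [h3] at h1
  exact tendsto_nhds_unique tendsto_const_nhds h1

lemma JL_le {ν : EllOne G} {φ : G →* ℂ} (hφ : ∀ x, ‖φ x‖ = 1) (h : chi φ ν = 1) :
    JL ν ≤ Ker hφ := by
  intro f hf
  have h1 := chi_tendsto hφ (mem_JL.mp hf)
  have h2 : ∀ n, chi φ (avg ν n * f) = chi φ f := by
    intro n; rw [chi_mul hφ, chi_avg hφ h, one_mul]
  simp only [h2] at h1
  have h3 : chi φ (0 : EllOne G) = 0 := (Ker hφ).zero_mem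
  rw [h3] at h1
  exact tendsto_nhds_unique tendsto_const_nhds h1

/-- `1 - ν` is a product of two elements of the kernel. -/
lemma one_sub_mem_sq {ν : EllOne G} {φ : G →* ℂ} (hφ : ∀ x, ‖φ x‖ = 1) (h : chi φ ν = 1)
    (hν : ‖ν‖ ≤ 1) : 1 - ν ∈ Ker hφ * Ker hφ := by
  have h1 : (1 - ν) ∈ Ker hφ := by
    have := one_sub_pow_mem hφ h 1
    rwa [pow_one] at this
  obtain ⟨y, hy, b, hb, hyb⟩ := factor_right (Ker hφ) (Ker hφ) (isClosed_Ker hφ)
    (isClosed_Ker hφ) (fun x hx a => Ker_mul_right hφ x hx a) ν hν (one_sub_pow_mem hφ h) (1 - ν) h1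
    (tendsto_one_sub hν)
  rw [hyb]
  exact Submodule.mul_mem_mul hy hb

/-- **Products of kernels.** -/
theorem inf_le_mul {μ : G → ℝ} (hs : Summable μ) (hpos : ∀ x, 0 < μ x) (h1 : ∑' x, μ x = 1)
    {φ₁ φ₂ : G →* ℂ} (hφ₁ : ∀ x, ‖φ₁ x‖ = 1) (hφ₂ : ∀ x, ‖φ₂ x‖ = 1)
    (hq : ‖∑' x, (μ x : ℂ) * (φ₁ x * starRingEnd ℂ (φ₂ x))‖ < 1) :
    Ker hφ₁ ⊓ Ker hφ₂ ≤ Ker hφ₁ * Ker hφ₂ := by
  intro f hf
  obtain ⟨hf1, hf2⟩ := Submodule.mem_inf.mp hf
  obtain ⟨a, ha, b, hb, hab⟩ := decomp hs hpos h1 hφ₁ hφ₂ hq f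
  have h0 : ∀ x, 0 ≤ μ x := fun x => (hpos x).le
  have c1 := chi_tw hs h0 h1 hφ₁
  have c2 := chi_tw hs h0 h1 hφ₂
  have n1 := (norm_tw hs h0 h1 hφ₁).le
  have n2 := (norm_tw hs h0 h1 hφ₂).le
  have ha2 : a ∈ Ker hφ₂ := JR_le hφ₂ c2 ha
  have hb1 : b ∈ Ker hφ₁ := JL_le hφ₁ c1 hb
  have ha1 : a ∈ Ker hφ₁ := by
    have : a = f - b := by rw [hab]; abel
    rw [this]; exact Submodule.sub_mem _ hf1 hb1
  have hb2 : b ∈ Ker hφ₂ := by
    have : b = f - a := by rw [hab]; abel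
    rw [this]; exact Submodule.sub_mem _ hf2 ha2
  rw [hab]
  refine Submodule.add_mem _ ?_ ?_
  · obtain ⟨y, hy, b', hb', hyb⟩ := factor_right (Ker hφ₁) (Ker hφ₂) (isClosed_Ker hφ₁)
      (isClosed_Ker hφ₂) (fun x hx a => Ker_mul_right hφ₁ x hx a) _ n2
      (one_sub_pow_mem hφ₂ c2) a ha1 (mem_JR.mp ha)
    rw [hyb]
    exact Submodule.mul_mem_mul hy hb'
  · obtain ⟨b', hb', y, hy, hyb⟩ := factor_left (Ker hφ₂) (Ker hφ₁) (isClosed_Ker hφ₂)
      (isClosed_Ker hφ₁) (fun x hx a => Ker_mul_left hφ₂ x hx a) _ n1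
      (one_sub_pow_mem hφ₁ c1) b hb2 (mem_JL.mp hb)
    rw [hyb]
    exact Submodule.mul_mem_mul hb' hy

/-- `el (ρ conj φ)` for real `ρ` with sum zero is in the square of the kernel -/
lemma real_mem_sq {ρ : G → ℝ} (hs : Summable ρ) (h0 : ∑' x, ρ x = 0) {φ : G →* ℂ}
    (hφ : ∀ x, ‖φ x‖ = 1) (f : EllOne G)
    (hf : ∀ x, EllOne.coeff f x = (ρ x : ℂ) * starRingEnd ℂ (φ x)) :
    f ∈ Ker hφ * Ker hφ := by
  have ha : Summable fun x => |ρ x| := hs.abs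
  set S : ℝ := ∑' x, |ρ x| with hS
  have hS0 : 0 ≤ S := tsum_nonneg fun _ => abs_nonneg _
  rcases hS0.eq_or_lt with hz | hpos
  · have h2 : ∀ x, ρ x = 0 := by
      have h3 := (ha.hasSum_iff.mpr hz.symm)
      rw [hasSum_zero_iff_of_nonneg fun _ => abs_nonneg _] at h3
      intro x
      exact abs_eq_zero.mp (congrFun h3 x)
    have h4 : f = 0 := ext_coeff fun x => by rw [hf, h2 x, coeff_zero]; simp
    rw [h4]
    exact Submodule.zero_mem _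
  · set μ₁ : G → ℝ := fun x => |ρ x| / S with hμ₁
    set μ₂ : G → ℝ := fun x => |ρ x| / S - ρ x / S with hμ₂
    have s1 : Summable μ₁ := ha.div_const S
    have s2 : Summable μ₂ := (ha.div_const S).sub (hs.div_const S)
    have p1 : ∀ x, 0 ≤ μ₁ x := fun x => by positivity
    have p2 : ∀ x, 0 ≤ μ₂ x := fun x => by
      simp only [hμ₂]
      rw [← sub_div]
      exact div_nonneg (sub_nonneg.mpr (le_abs_self _)) hpos.le
    have t1 : ∑' x, μ₁ x = 1 := by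
      simp only [hμ₁]
      rw [tsum_div_const, ← hS, div_self hpos.ne']
    have t2 : ∑' x, μ₂ x = 1 := by
      simp only [hμ₂]
      rw [(ha.div_const S).tsum_sub (hs.div_const S), tsum_div_const, tsum_div_const, h0, ← hS,
        div_self hpos.ne']
      simp
    have m1 := one_sub_mem_sq hφ (chi_tw s1 p1 t1 hφ) (norm_tw s1 p1 t1 hφ).le
    have m2 := one_sub_mem_sq hφ (chi_tw s2 p2 t2 hφ) (norm_tw s2 p2 t2 hφ).le
    have h5 : f = (S : ℂ) • ((1 - tw μ₂ φ (tw_summable s2 p2 hφ))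
        - (1 - tw μ₁ φ (tw_summable s1 p1 hφ))) := by
      refine ext_coeff fun x => ?_
      rw [hf, coeff_smul, coeff_sub, coeff_sub, coeff_sub]
      have e1 : EllOne.coeff (tw μ₁ φ (tw_summable s1 p1 hφ)) x
          = ((|ρ x| / S : ℝ) : ℂ) * starRingEnd ℂ (φ x) := rfl
      have e2 : EllOne.coeff (tw μ₂ φ (tw_summable s2 p2 hφ)) x
          = ((|ρ x| / S - ρ x / S : ℝ) : ℂ) * starRingEnd ℂ (φ x) := rfl
      rw [e1, e2]
      have hSc : (S : ℂ) ≠ 0 := by exact_mod_cast hpos.ne'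
      push_cast
      field_simp
      ring
    rw [h5]
    exact Submodule.smul_mem _ _ (Submodule.sub_mem _ m2 m1)

/-- **Codimension one.** The kernel of a character is idempotent. -/
theorem Ker_le_sq {φ : G →* ℂ} (hφ : ∀ x, ‖φ x‖ = 1) : Ker hφ ≤ Ker hφ * Ker hφ := by
  intro f hf
  have hsum := chi_summable hφ f
  have hre : Summable fun x => (EllOne.coeff f x * φ x).re := Complex.reCLM.summable hsum.of_norm
  have him : Summable fun x => (EllOne.coeff f x * φ x).im := Complex.imCLM.summable hsum.of_norm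
  have hre0 : ∑' x, (EllOne.coeff f x * φ x).re = 0 := by
    have h1 := Complex.reCLM.map_tsum hsum.of_norm
    have h2 : ∑' x, EllOne.coeff f x * φ x = 0 := hf
    rw [h2] at h1
    simpa using h1.symm
  have him0 : ∑' x, (EllOne.coeff f x * φ x).im = 0 := by
    have h1 := Complex.imCLM.map_tsum hsum.of_norm
    have h2 : ∑' x, EllOne.coeff f x * φ x = 0 := hf
    rw [h2] at h1
    simpa using h1.symm
  have sre : Summable fun x => ‖((EllOne.coeff f x * φ x).re : ℂ) * starRingEnd ℂ (φ x)‖ := by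
    refine hre.abs.congr fun x => ?_
    rw [norm_mul, RCLike.norm_conj, hφ, mul_one, Complex.norm_real, Real.norm_eq_abs]
  have sim : Summable fun x => ‖((EllOne.coeff f x * φ x).im : ℂ) * starRingEnd ℂ (φ x)‖ := by
    refine him.abs.congr fun x => ?_
    rw [norm_mul, RCLike.norm_conj, hφ, mul_one, Complex.norm_real, Real.norm_eq_abs]
  have m1 := real_mem_sq hre hre0 hφ (el _ sre) fun x => coeff_el _ _ _
  have m2 := real_mem_sq him him0 hφ (el _ sim) fun x => coeff_el _ _ _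
  have h5 : f = el _ sre + Complex.I • el _ sim := by
    refine ext_coeff fun x => ?_
    rw [coeff_add, coeff_smul, coeff_el, coeff_el, ← mul_assoc, ← add_mul]
    have h6 : ((EllOne.coeff f x * φ x).re : ℂ) + Complex.I * ((EllOne.coeff f x * φ x).im : ℂ)
        = EllOne.coeff f x * φ x := by
      rw [mul_comm Complex.I]; exact Complex.re_add_im _
    rw [h6, mul_assoc, mul_comm (φ x), conj_mul_self (hφ x), mul_one]
  rw [h5]
  exact Submodule.add_mem _ m1 (Submodule.smul_mem _ _ m2)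

/-- `|∑ μ ψ| < 1` if `μ` has full support and `ψ` is not trivial -/
lemma norm_sum_lt_one {μ : G → ℝ} (hs : Summable μ) (hpos : ∀ x, 0 < μ x) (h1 : ∑' x, μ x = 1)
    {φ₁ φ₂ : G →* ℂ} (hφ₁ : ∀ x, ‖φ₁ x‖ = 1) (hφ₂ : ∀ x, ‖φ₂ x‖ = 1) (hne : φ₁ ≠ φ₂) :
    ‖∑' x, (μ x : ℂ) * (φ₁ x * starRingEnd ℂ (φ₂ x))‖ < 1 := by
  obtain ⟨x₀, hx₀⟩ : ∃ x, φ₁ x ≠ φ₂ x := by
    by_contra h
    push Not at h
    exact hne (MonoidHom.ext h)
  set z := φ₁ x₀ * starRingEnd ℂ (φ₂ x₀) with hz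
  have hz1 : ‖z‖ = 1 := by rw [hz, norm_mul, RCLike.norm_conj, hφ₁, hφ₂, mul_one]
  have hzne : z ≠ 1 := by
    intro h
    apply hx₀
    have h2 : z * φ₂ x₀ = φ₁ x₀ := by rw [hz, mul_assoc, conj_mul_self (hφ₂ x₀), mul_one]
    rw [← h2, h, one_mul]
  have hx1 : (1 : G) ≠ x₀ := by
    rintro rfl
    apply hx₀
    rw [map_one, map_one]
  have hre : z.re < 1 := by
    rcases lt_or_eq_of_le ((Complex.re_le_norm z).trans hz1.le) with h | h
    · exact h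
    · exfalso
      apply hzne
      have h3 : z.re ^ 2 + z.im ^ 2 = 1 := by
        have : ‖z‖ ^ 2 = 1 := by rw [hz1]; norm_num
        rw [Complex.sq_norm, Complex.normSq_apply] at this
        nlinarith
      have h4 : z.im = 0 := by
        rw [h] at h3
        nlinarith [sq_nonneg z.im]
      exact Complex.ext (by simpa using h) (by simpa using h4)
  have hsψ : Summable fun x => (μ x : ℂ) * (φ₁ x * starRingEnd ℂ (φ₂ x)) := by
    refine Summable.of_norm (hs.congr fun x => ?_)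
    rw [norm_mul, norm_mul, RCLike.norm_conj, hφ₁, hφ₂, mul_one, mul_one, Complex.norm_real,
      Real.norm_of_nonneg (hpos x).le]
  have e1 := hs.sum_add_tsum_compl (s := {1, x₀})
  have e2 := hsψ.sum_add_tsum_compl (s := {1, x₀})
  rw [← e2]
  rw [h1, Finset.sum_pair hx1] at e1
  rw [Finset.sum_pair hx1]
  have h5 : ‖∑' x : ((({1, x₀} : Finset G) : Set G)ᶜ : Set G),
      (μ x : ℂ) * (φ₁ x * starRingEnd ℂ (φ₂ x))‖
      ≤ ∑' x : ((({1, x₀} : Finset G) : Set G)ᶜ : Set G), μ x := by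
    refine tsum_of_norm_bounded (hs.subtype _).hasSum fun x => ?_
    rw [norm_mul, norm_mul, RCLike.norm_conj, hφ₁, hφ₂, mul_one, mul_one, Complex.norm_real,
      Real.norm_of_nonneg (hpos x).le]
    exact le_rfl
  have h6 : ‖(μ 1 : ℂ) * (φ₁ 1 * starRingEnd ℂ (φ₂ 1)) + (μ x₀ : ℂ) * z‖ < μ 1 + μ x₀ := by
    have h8 : (μ 1 : ℂ) * (φ₁ 1 * starRingEnd ℂ (φ₂ 1)) = (μ 1 : ℂ) := by
      simp only [map_one, mul_one]
    rw [h8]
    have h7 : ‖(μ 1 : ℂ) + (μ x₀ : ℂ) * z‖ ^ 2 < (μ 1 + μ x₀) ^ 2 := by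
      rw [Complex.sq_norm, Complex.normSq_apply]
      simp only [Complex.add_re, Complex.add_im, Complex.mul_re, Complex.mul_im, Complex.ofReal_re,
        Complex.ofReal_im, zero_mul, sub_zero, add_zero, zero_add]
      have h3 : z.re ^ 2 + z.im ^ 2 = 1 := by
        have : ‖z‖ ^ 2 = 1 := by rw [hz1]; norm_num
        rw [Complex.sq_norm, Complex.normSq_apply] at this
        nlinarith
      have p1 := hpos 1
      have p2 := hpos x₀
      have p3 : 0 < μ 1 * μ x₀ := mul_pos p1 p2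
      have e : (μ 1 + μ x₀ * z.re) * (μ 1 + μ x₀ * z.re) + μ x₀ * z.im * (μ x₀ * z.im)
          = μ 1 ^ 2 + 2 * (μ 1 * μ x₀) * z.re + μ x₀ ^ 2 * (z.re ^ 2 + z.im ^ 2) := by ring
      rw [e, h3]
      nlinarith
    exact lt_of_pow_lt_pow_left₀ 2 (by have := hpos 1; have := hpos x₀; linarith) h7
  refine (norm_add_le _ _).trans_lt ?_
  linarith

/-- **Main theorem for two characters.** -/
theorem inf_idem {μ : G → ℝ} (hs : Summable μ) (hpos : ∀ x, 0 < μ x) (h1 : ∑' x, μ x = 1)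
    {φ₁ φ₂ : G →* ℂ} (hφ₁ : ∀ x, ‖φ₁ x‖ = 1) (hφ₂ : ∀ x, ‖φ₂ x‖ = 1) (hne : φ₁ ≠ φ₂) :
    Ker hφ₁ ⊓ Ker hφ₂ ≤ (Ker hφ₁ ⊓ Ker hφ₂) * (Ker hφ₁ ⊓ Ker hφ₂) := by
  have e12 := inf_le_mul hs hpos h1 hφ₁ hφ₂ (norm_sum_lt_one hs hpos h1 hφ₁ hφ₂ hne)
  have e21 : Ker hφ₁ ⊓ Ker hφ₂ ≤ Ker hφ₂ * Ker hφ₁ := fun f hf =>
    inf_le_mul hs hpos h1 hφ₂ hφ₁ (norm_sum_lt_one hs hpos h1 hφ₂ hφ₁ hne.symm) ⟨hf.2, hf.1⟩
  have f12 : Ker hφ₁ * Ker hφ₂ ≤ Ker hφ₁ ⊓ Ker hφ₂ := Submodule.mul_le.mpr fun a ha b hb =>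
    Submodule.mem_inf.mpr ⟨Ker_mul_right hφ₁ a ha b, Ker_mul_left hφ₂ b hb a⟩
  have f21 : Ker hφ₂ * Ker hφ₁ ≤ Ker hφ₁ ⊓ Ker hφ₂ := Submodule.mul_le.mpr fun a ha b hb =>
    Submodule.mem_inf.mpr ⟨Ker_mul_left hφ₁ b hb a, Ker_mul_right hφ₂ a ha b⟩
  exact idem (Ker hφ₁) (Ker hφ₂) (Ker_le_sq hφ₁) (Ker_le_sq hφ₂) e12 e21 f12 f21

end Pool.Agent.V5helper27.CI
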