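import Mathlib

/-!
# A second moment estimate

For a probability `μ` on a group `G`, a unimodular multiplicative `ψ` with `|∑ μ ψ| < 1`, the functions
`z_n`, `z_0 = 0`, `z_{n+1} = z_n * (μ ψ) + μ(g) c (μ^n * δ_g)` have `ℓ¹` norm `O(√n)`.
-/

set_option autoImplicit false

namespace Pool.Agent.V5helper27.CI

open Filter Topology

section CS

variable {ι : Type*}

lemma le_of_sq {t : ℂ} {a b : ℝ} (ha : 0 ≤ a) (hb : 0 ≤ b) (h : ‖t‖ ^ 2 ≤ a * b) {s : ℝ}
    (hs : 0 < s) : 2 * ‖t‖ ≤ s * a + b / s := by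
  have h1 : (2 * ‖t‖) ^ 2 ≤ (s * a + b / s) ^ 2 := by
    have h2 : (s * a + b / s) ^ 2 = (s * a - b / s) ^ 2 + 4 * (a * b) := by
      field_simp
      ring
    rw [h2]
    nlinarith [sq_nonneg (s * a - b / s)]
  have h3 : 0 ≤ s * a + b / s := by positivity
  exact abs_le_of_sq_le_sq' h1 h3 |>.2

lemma cs_summable (t : ι → ℂ) (a b : ι → ℝ) (ha : ∀ i, 0 ≤ a i) (hb : ∀ i, 0 ≤ b i)
    (h : ∀ i, ‖t i‖ ^ 2 ≤ a i * b i) (sa : Summable a) (sb : Summable b) :
    Summable fun i => ‖t i‖ := by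
  refine Summable.of_nonneg_of_le (fun _ => norm_nonneg _) (fun i => ?_) (sa.add sb)
  have := le_of_sq (ha i) (hb i) (h i) one_pos
  have h1 := ha i
  have h2 := hb i
  simp only [one_mul, div_one] at this
  linarith

/-- Cauchy–Schwarz. -/
lemma cs (t : ι → ℂ) (a b : ι → ℝ) (ha : ∀ i, 0 ≤ a i) (hb : ∀ i, 0 ≤ b i)
    (h : ∀ i, ‖t i‖ ^ 2 ≤ a i * b i) (sa : Summable a) (sb : Summable b) :
    (∑' i, ‖t i‖) ^ 2 ≤ (∑' i, a i) * ∑' i, b i := by
  have st := cs_summable t a b ha hb h sa sb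
  have hT : 0 ≤ ∑' i, ‖t i‖ := tsum_nonneg fun _ => norm_nonneg _
  have hA : 0 ≤ ∑' i, a i := tsum_nonneg ha
  have hB : 0 ≤ ∑' i, b i := tsum_nonneg hb
  have key : ∀ s : ℝ, 0 < s → 2 * (∑' i, ‖t i‖) ≤ s * (∑' i, a i) + (∑' i, b i) / s := by
    intro s hs
    rw [← tsum_mul_left, ← tsum_mul_left, ← tsum_div_const,
      ← (sa.mul_left s).tsum_add (sb.div_const s)]
    exact (st.mul_left 2).tsum_le_tsum (fun i => le_of_sq (ha i) (hb i) (h i) hs)
      ((sa.mul_left s).add (sb.div_const s))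
  have key2 : ∀ s : ℝ, 0 ≤ (∑' i, a i) * (s * s) + (-(2 * (∑' i, ‖t i‖))) * s + ∑' i, b i := by
    intro s
    rcases le_or_gt s 0 with hs | hs
    · have h1 : 0 ≤ (∑' i, a i) * (s * s) := mul_nonneg hA (mul_self_nonneg s)
      have h2 : 0 ≤ (-(2 * (∑' i, ‖t i‖))) * s := by nlinarith
      linarith
    · have h1 := key s hs
      have h2 := mul_le_mul_of_nonneg_right h1 hs.le
      have h3 : (s * (∑' i, a i) + (∑' i, b i) / s) * s = (∑' i, a i) * (s * s) + ∑' i, b i := by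
        field_simp
      rw [h3] at h2
      linarith
  have h4 := discrim_le_zero key2
  unfold discrim at h4
  nlinarith

lemma cs_norm (t : ι → ℂ) (a b : ι → ℝ) (ha : ∀ i, 0 ≤ a i) (hb : ∀ i, 0 ≤ b i)
    (h : ∀ i, ‖t i‖ ^ 2 ≤ a i * b i) (sa : Summable a) (sb : Summable b) :
    ‖∑' i, t i‖ ^ 2 ≤ (∑' i, a i) * ∑' i, b i := by
  have st := cs_summable t a b ha hb h sa sb
  have h1 := cs t a b ha hb h sa sb
  have h2 : ‖∑' i, t i‖ ≤ ∑' i, ‖t i‖ := norm_tsum_le_tsum_norm st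
  have h3 : ‖∑' i, t i‖ ^ 2 ≤ (∑' i, ‖t i‖) ^ 2 := by gcongr
  exact h3.trans h1

end CS

section Conv

variable {G : Type*} [Group G] {𝕜 : Type*} [RCLike 𝕜]

/-- convolution of functions -/
noncomputable def cv (f w : G → 𝕜) (u : G) : 𝕜 := ∑' x, f x * w (x⁻¹ * u)

/-- the change of variables -/
def shear : G × G ≃ G × G where
  toFun p := (p.1, p.1⁻¹ * p.2)
  invFun p := (p.1, p.1 * p.2)
  left_inv p := by simp
  right_inv p := by simp

lemma summable_pair {f w : G → 𝕜} (hf : Summable fun x => ‖f x‖) (hw : Summable fun x => ‖w x‖) :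
    Summable fun p : G × G => f p.1 * w (p.1⁻¹ * p.2) := by
  have h := summable_mul_of_summable_norm hf hw
  exact (shear (G := G)).summable_iff.mpr h

lemma cv_summable {f w : G → 𝕜} (hf : Summable fun x => ‖f x‖)
    (hw : Summable fun x => ‖w x‖) : Summable fun u => ‖cv f w u‖ := by
  have h1 := (Prod.swap : G × G → G × G)
  have h := (summable_pair hf hw).prod_symm
  have h2 : Summable fun u => cv f w u := h.prod
  exact h2.norm

lemma cv_summable_term {f w : G → 𝕜} (hf : Summable fun x => ‖f x‖)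
    (hw : Summable fun x => ‖w x‖) (u : G) : Summable fun x => f x * w (x⁻¹ * u) := by
  have h := (summable_pair hf hw).prod_symm
  exact h.prod_factor u

lemma cv_tsum {f w : G → 𝕜} (hf : Summable fun x => ‖f x‖) (hw : Summable fun x => ‖w x‖) :
    ∑' u, cv f w u = (∑' x, f x) * ∑' x, w x := by
  rw [tsum_mul_tsum_of_summable_norm hf hw]
  have h := summable_pair hf hw
  have h1 : ∑' p : G × G, f p.1 * w p.2 = ∑' p : G × G, f p.1 * w (p.1⁻¹ * p.2) :=
    ((shear (G := G)).tsum_eq fun p : G × G => f p.1 * w p.2).symm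
  rw [h1]
  have h2 : ∑' p : G × G, f p.1 * w (p.1⁻¹ * p.2) = ∑' p : G × G, f p.2 * w (p.2⁻¹ * p.1) :=
    ((Equiv.prodComm G G).tsum_eq fun p : G × G => f p.1 * w (p.1⁻¹ * p.2)).symm
  have h3 : Summable fun p : G × G => f p.2 * w (p.2⁻¹ * p.1) := h.prod_symm
  rw [h2, h3.tsum_prod]
  rfl

lemma tsum_right {M : Type*} [AddCommMonoid M] [TopologicalSpace M] (f : G → M) (g : G) :
    ∑' u, f (u * g⁻¹) = ∑' u, f u :=
  (Equiv.mulRight g⁻¹).tsum_eq f

lemma summable_right {M : Type*} [AddCommMonoid M] [TopologicalSpace M] {f : G → M}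
    (hf : Summable f) (g : G) : Summable fun u => f (u * g⁻¹) :=
  (Equiv.mulRight g⁻¹).summable_iff.mpr hf

end Conv

section Seq

variable {G : Type*} [Group G] [DecidableEq G]

/-- the convolution powers of `μ` -/
noncomputable def mseq (μ : G → ℝ) : ℕ → G → ℝ
  | 0 => fun u => if u = 1 then 1 else 0
  | n + 1 => cv (mseq μ n) μ

/-- the sequence `z` -/
noncomputable def zseq (μ : G → ℝ) (ψ : G → ℂ) (g : G) (c : ℂ) : ℕ → G → ℂ
  | 0 => fun _ => 0
  | n + 1 => fun u => cv (zseq μ ψ g c n) (fun y => (μ y : ℂ) * ψ y) u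
      + μ g * c * mseq μ n (u * g⁻¹)

/-- the sequence `v` of second moments -/
noncomputable def vseq (μ : G → ℝ) (ψ : G → ℂ) (g : G) (c : ℂ) : ℕ → G → ℝ
  | 0 => fun _ => 0
  | n + 1 => fun u => cv (vseq μ ψ g c n) μ u
      + μ g * (2 * (starRingEnd ℂ c * ψ g * zseq μ ψ g c n (u * g⁻¹)).re
        + mseq μ n (u * g⁻¹))

variable {μ : G → ℝ} {ψ : G → ℂ} {g : G} {c : ℂ}

lemma mseq_nonneg (h0 : ∀ x, 0 ≤ μ x) (n : ℕ) (u : G) : 0 ≤ mseq μ n u := by
  induction n generalizing u with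
  | zero => simp only [mseq]; split_ifs <;> norm_num
  | succ n ih => exact tsum_nonneg fun x => mul_nonneg (ih x) (h0 _)

lemma norm_of_nonneg {f : G → ℝ} (h : ∀ x, 0 ≤ f x) : (fun x => ‖f x‖) = f := by
  funext x; rw [Real.norm_of_nonneg (h x)]

lemma mseq_summable (h0 : ∀ x, 0 ≤ μ x) (hs : Summable μ) (n : ℕ) :
    Summable fun u => ‖mseq μ n u‖ := by
  induction n with
  | zero =>
    simp only [mseq]
    refine summable_of_ne_finset_zero (s := {1}) ?_
    intro b hb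
    simp only [Finset.mem_singleton] at hb
    simp [hb]
  | succ n ih =>
    exact cv_summable ih (by rw [norm_of_nonneg h0]; exact hs)

lemma mseq_tsum (h0 : ∀ x, 0 ≤ μ x) (hs : Summable μ) (h1 : ∑' x, μ x = 1) (n : ℕ) :
    ∑' u, mseq μ n u = 1 := by
  induction n with
  | zero => simp [mseq]
  | succ n ih =>
    have := cv_tsum (mseq_summable h0 hs n) (by rw [norm_of_nonneg h0]; exact hs : Summable fun x => ‖μ x‖)
    simp only [mseq]
    rw [this, ih, h1, one_mul]

lemma psi_summable (h0 : ∀ x, 0 ≤ μ x) (hs : Summable μ) (hψ : ∀ x, ‖ψ x‖ = 1) :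
    Summable fun y => ‖(μ y : ℂ) * ψ y‖ := by
  refine hs.congr fun y => ?_
  rw [norm_mul, hψ, mul_one, Complex.norm_real, Real.norm_of_nonneg (h0 y)]

lemma zseq_summable (h0 : ∀ x, 0 ≤ μ x) (hs : Summable μ) (hψ : ∀ x, ‖ψ x‖ = 1) (n : ℕ) :
    Summable fun u => ‖zseq μ ψ g c n u‖ := by
  induction n with
  | zero => simp [zseq, summable_zero]
  | succ n ih =>
    simp only [zseq]
    have h2 : Summable fun u : G => ‖(μ g * c * mseq μ n (u * g⁻¹) : ℂ)‖ := by
      have h3 := summable_right (mseq_summable h0 hs n) g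
      refine (h3.mul_left ‖(μ g * c : ℂ)‖).congr fun u => ?_
      rw [norm_mul _ ((mseq μ n (u * g⁻¹) : ℝ) : ℂ), Complex.norm_real]
    refine Summable.of_nonneg_of_le (fun _ => norm_nonneg _) (fun u => norm_add_le _ _)
      ((cv_summable ih (psi_summable h0 hs hψ)).add h2)

lemma zseq_tsum (h0 : ∀ x, 0 ≤ μ x) (hs : Summable μ) (h1 : ∑' x, μ x = 1)
    (hψ : ∀ x, ‖ψ x‖ = 1) (n : ℕ) :
    ∑' u, zseq μ ψ g c (n + 1) u
      = (∑' u, zseq μ ψ g c n u) * (∑' x, (μ x : ℂ) * ψ x) + μ g * c := by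
  simp only [zseq]
  have hz := zseq_summable (g := g) (c := c) h0 hs hψ n
  have hm := mseq_summable h0 hs n
  have s1 : Summable fun u => cv (zseq μ ψ g c n) (fun y => (μ y : ℂ) * ψ y) u :=
    (cv_summable hz (psi_summable h0 hs hψ)).of_norm
  have s2 : Summable fun u : G => (μ g * c * mseq μ n (u * g⁻¹) : ℂ) := by
    have h3 : Summable fun u : G => ((mseq μ n (u * g⁻¹) : ℝ) : ℂ) := by
      refine Summable.of_norm ?_
      refine (summable_right hm g).congr fun u => ?_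
      rw [Complex.norm_real]
    exact h3.mul_left _
  rw [s1.tsum_add s2, cv_tsum hz (psi_summable h0 hs hψ), tsum_mul_left]
  congr 1
  have h4 : ∑' u : G, ((mseq μ n (u * g⁻¹) : ℝ) : ℂ) = 1 := by
    rw [← Complex.ofReal_tsum, tsum_right (mseq μ n) g, mseq_tsum h0 hs h1, Complex.ofReal_one]
  rw [h4, mul_one]

lemma zseq_tsum_bound (h0 : ∀ x, 0 ≤ μ x) (hs : Summable μ) (h1 : ∑' x, μ x = 1)
    (hψ : ∀ x, ‖ψ x‖ = 1) (hc : ‖c‖ = 1) (hq : ‖∑' x, (μ x : ℂ) * ψ x‖ < 1) (n : ℕ) :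
    ‖∑' u, zseq μ ψ g c n u‖ ≤ μ g / (1 - ‖∑' x, (μ x : ℂ) * ψ x‖) := by
  set q := ‖∑' x, (μ x : ℂ) * ψ x‖ with hqdef
  have hq0 : 0 ≤ q := norm_nonneg _
  have hpos : 0 < 1 - q := by linarith
  induction n with
  | zero => simp only [zseq, tsum_zero, norm_zero]; exact div_nonneg (h0 g) hpos.le
  | succ n ih =>
    rw [zseq_tsum h0 hs h1 hψ]
    refine (norm_add_le _ _).trans ?_
    rw [norm_mul, norm_mul, hc, mul_one, Complex.norm_real, Real.norm_of_nonneg (h0 g), ← hqdef]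
    have h2 := mul_le_mul_of_nonneg_right ih hq0
    have h3 : μ g / (1 - q) * q + μ g = μ g / (1 - q) := by
      field_simp
      ring
    linarith

lemma sq_expand (w c : ℂ) (hc : ‖c‖ = 1) (m : ℝ) :
    ‖w + c * m‖ ^ 2 = ‖w‖ ^ 2 + 2 * (starRingEnd ℂ c * w).re * m + m ^ 2 := by
  have h1 : c.re ^ 2 + c.im ^ 2 = 1 := by
    have : ‖c‖ ^ 2 = 1 := by rw [hc]; norm_num
    rw [Complex.sq_norm, Complex.normSq_apply] at this
    nlinarith
  rw [Complex.sq_norm, Complex.sq_norm, Complex.normSq_apply, Complex.normSq_apply]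
  simp only [Complex.add_re, Complex.add_im, Complex.mul_re, Complex.mul_im, Complex.ofReal_re,
    Complex.ofReal_im, Complex.conj_re, Complex.conj_im]
  have h2 : (c.re * m) * (c.re * m) + (c.im * m) * (c.im * m) = m ^ 2 := by
    have : (c.re * m) * (c.re * m) + (c.im * m) * (c.im * m) = (c.re ^ 2 + c.im ^ 2) * m ^ 2 := by
      ring
    rw [this, h1, one_mul]
  linear_combination h2

lemma re_lower (w c : ℂ) (hc : ‖c‖ = 1) : -‖w‖ ≤ (starRingEnd ℂ c * w).re := by
  have h1 : |(starRingEnd ℂ c * w).re| ≤ ‖starRingEnd ℂ c * w‖ := Complex.abs_re_le_norm _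
  rw [norm_mul, RCLike.norm_conj, hc, one_mul] at h1
  exact (abs_le.mp h1).1

theorem vseq_main (h0 : ∀ x, 0 ≤ μ x) (hs : Summable μ) (hψ : ∀ x, ‖ψ x‖ = 1) (hc : ‖c‖ = 1)
    (n : ℕ) :
    (∀ u, 0 ≤ vseq μ ψ g c n u ∧
      ‖zseq μ ψ g c n u‖ ^ 2 ≤ vseq μ ψ g c n u * mseq μ n u) ∧
    Summable (vseq μ ψ g c n) := by
  induction n with
  | zero =>
    refine ⟨fun u => ⟨by simp [vseq], by simp [vseq, zseq]⟩, ?_⟩
    simp only [vseq]
    exact summable_zero
  | succ n ih =>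
    obtain ⟨ih1, ih2⟩ := ih
    have hm0 := mseq_nonneg h0 n
    have hm := mseq_summable h0 hs n
    have hz := zseq_summable (g := g) (c := c) h0 hs hψ n
    have hμ : Summable fun x => ‖μ x‖ := by rw [norm_of_nonneg h0]; exact hs
    have hv : Summable fun u => ‖vseq μ ψ g c n u‖ := ih2.norm
    constructor
    · intro u
      set x₀ := u * g⁻¹ with hx₀
      have hx₀u : x₀⁻¹ * u = g := by rw [hx₀]; group
      set r : ℝ := 2 * (starRingEnd ℂ c * ψ g * zseq μ ψ g c n x₀).re + mseq μ n x₀ with hr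
      set T : G → ℂ := fun x => zseq μ ψ g c n x * ((μ (x⁻¹ * u) : ℂ) * ψ (x⁻¹ * u))
        + (if x = x₀ then (μ g * c * mseq μ n x₀ : ℂ) else 0) with hT
      set W : G → ℝ := fun x => vseq μ ψ g c n x * μ (x⁻¹ * u)
        + (if x = x₀ then μ g * r else 0) with hW
      set M : G → ℝ := fun x => mseq μ n x * μ (x⁻¹ * u) with hM
      have sT1 : Summable fun x => zseq μ ψ g c n x * ((μ (x⁻¹ * u) : ℂ) * ψ (x⁻¹ * u)) :=
        cv_summable_term hz (psi_summable h0 hs hψ) u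
      have sT2 : Summable fun x : G => (if x = x₀ then (μ g * c * mseq μ n x₀ : ℂ) else 0) :=
        (hasSum_ite_eq x₀ _).summable
      have sW1 : Summable fun x => vseq μ ψ g c n x * μ (x⁻¹ * u) := cv_summable_term hv hμ u
      have sW2 : Summable fun x : G => (if x = x₀ then μ g * r else 0) :=
        (hasSum_ite_eq x₀ _).summable
      have sW : Summable W := sW1.add sW2
      have sM : Summable M := cv_summable_term hm hμ u
      have eT : zseq μ ψ g c (n + 1) u = ∑' x, T x := by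
        rw [hT, sT1.tsum_add sT2, tsum_ite_eq]
        simp only [zseq, cv]
        rfl
      have eW : vseq μ ψ g c (n + 1) u = ∑' x, W x := by
        rw [hW, sW1.tsum_add sW2, tsum_ite_eq]
        simp only [vseq, cv]
        rfl
      have eM : mseq μ (n + 1) u = ∑' x, M x := rfl
      have hzx := (ih1 x₀).2
      have hww : ‖ψ g * zseq μ ψ g c n x₀‖ = ‖zseq μ ψ g c n x₀‖ := by
        rw [norm_mul, hψ, one_mul]
      have hr' : r = 2 * (starRingEnd ℂ c * (ψ g * zseq μ ψ g c n x₀)).re + mseq μ n x₀ := by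
        rw [hr, mul_assoc]
      have hWr : 0 ≤ vseq μ ψ g c n x₀ + r := by
        have h1 := le_of_sq (ih1 x₀).1 (hm0 x₀) hzx one_pos
        have h2 := re_lower (ψ g * zseq μ ψ g c n x₀) c hc
        rw [hww] at h2
        rw [hr']
        simp only [one_mul, div_one] at h1
        linarith
      have hW0 : ∀ x, 0 ≤ W x := by
        intro x
        by_cases hx : x = x₀
        · simp only [hW, hx, if_true, hx₀u]
          have h1 := mul_nonneg (h0 g) hWr
          linarith [mul_comm (vseq μ ψ g c n x₀) (μ g), mul_add (μ g) (vseq μ ψ g c n x₀) r]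
        · simp only [hW, hx, if_false, add_zero]
          exact mul_nonneg (ih1 x).1 (h0 _)
      have hM0 : ∀ x, 0 ≤ M x := fun x => mul_nonneg (hm0 x) (h0 _)
      have hTWM : ∀ x, ‖T x‖ ^ 2 ≤ W x * M x := by
        intro x
        by_cases hx : x = x₀
        · have e1 : T x = μ g * (ψ g * zseq μ ψ g c n x₀ + c * mseq μ n x₀) := by
            simp only [hT, hx, if_true, hx₀u]
            ring
          have e2 : W x = μ g * (vseq μ ψ g c n x₀ + r) := by
            simp only [hW, hx, if_true, hx₀u]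
            ring
          have e3 : M x = μ g * mseq μ n x₀ := by
            simp only [hM, hx, hx₀u]
            ring
          rw [e1, e2, e3, norm_mul, mul_pow, sq_expand _ c hc, Complex.norm_real,
            Real.norm_of_nonneg (h0 g), hww]
          have h3 : ‖zseq μ ψ g c n x₀‖ ^ 2
              + 2 * (starRingEnd ℂ c * (ψ g * zseq μ ψ g c n x₀)).re * mseq μ n x₀
              + mseq μ n x₀ ^ 2 ≤ (vseq μ ψ g c n x₀ + r) * mseq μ n x₀ := by
            rw [hr']
            nlinarith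
          have h4 : 0 ≤ (μ g) ^ 2 := by positivity
          calc μ g ^ 2 * (‖zseq μ ψ g c n x₀‖ ^ 2
              + 2 * (starRingEnd ℂ c * (ψ g * zseq μ ψ g c n x₀)).re * mseq μ n x₀
              + mseq μ n x₀ ^ 2) ≤ μ g ^ 2 * ((vseq μ ψ g c n x₀ + r) * mseq μ n x₀) :=
                mul_le_mul_of_nonneg_left h3 h4
            _ = _ := by ring
        · have e1 : T x = (μ (x⁻¹ * u) : ℂ) * (ψ (x⁻¹ * u) * zseq μ ψ g c n x) := by
            simp only [hT, hx, if_false, add_zero]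
            ring
          have e2 : W x = μ (x⁻¹ * u) * vseq μ ψ g c n x := by
            simp only [hW, hx, if_false, add_zero]
            ring
          rw [e1, e2, norm_mul, norm_mul, hψ, one_mul, mul_pow, Complex.norm_real,
            Real.norm_of_nonneg (h0 _)]
          have h4 : 0 ≤ (μ (x⁻¹ * u)) ^ 2 := by positivity
          calc μ (x⁻¹ * u) ^ 2 * ‖zseq μ ψ g c n x‖ ^ 2
              ≤ μ (x⁻¹ * u) ^ 2 * (vseq μ ψ g c n x * mseq μ n x) :=
                mul_le_mul_of_nonneg_left (ih1 x).2 h4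
            _ = _ := by simp only [hM]; ring
      refine ⟨?_, ?_⟩
      · rw [eW]; exact tsum_nonneg hW0
      · rw [eT, eW, eM]
        exact cs_norm T W M hW0 hM0 hTWM sW sM
    · simp only [vseq]
      refine Summable.add (cv_summable hv hμ).of_norm ?_
      refine Summable.mul_left _ (Summable.add (Summable.mul_left _ ?_) ?_)
      · have h3 : Summable fun u => starRingEnd ℂ c * ψ g * zseq μ ψ g c n (u * g⁻¹) :=
          (summable_right hz.of_norm g).mul_left _
        exact Complex.reCLM.summable h3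
      · exact summable_right hm.of_norm g

theorem vseq_tsum_bound (h0 : ∀ x, 0 ≤ μ x) (hs : Summable μ) (h1 : ∑' x, μ x = 1)
    (hψ : ∀ x, ‖ψ x‖ = 1) (hc : ‖c‖ = 1) (hq : ‖∑' x, (μ x : ℂ) * ψ x‖ < 1) (n : ℕ) :
    ∑' u, vseq μ ψ g c n u
      ≤ n * (μ g * (2 * (μ g / (1 - ‖∑' x, (μ x : ℂ) * ψ x‖)) + 1)) := by
  induction n with
  | zero => simp [vseq]
  | succ n ih =>
    have hm := mseq_summable h0 hs n
    have hz := zseq_summable (g := g) (c := c) h0 hs hψ n
    have hμ : Summable fun x => ‖μ x‖ := by rw [norm_of_nonneg h0]; exact hs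
    have hv : Summable fun u => ‖vseq μ ψ g c n u‖ := (vseq_main h0 hs hψ hc n).2.norm
    have s3 : Summable fun u => starRingEnd ℂ c * ψ g * zseq μ ψ g c n (u * g⁻¹) :=
      (summable_right hz.of_norm g).mul_left _
    have s4 : Summable fun u => (starRingEnd ℂ c * ψ g * zseq μ ψ g c n (u * g⁻¹)).re :=
      Complex.reCLM.summable s3
    have s5 : Summable fun u => mseq μ n (u * g⁻¹) := summable_right hm.of_norm g
    have e1 : ∑' u, vseq μ ψ g c (n + 1) u = (∑' u, vseq μ ψ g c n u)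
        + μ g * (2 * (starRingEnd ℂ c * ψ g * ∑' u, zseq μ ψ g c n u).re + 1) := by
      simp only [vseq]
      rw [(cv_summable hv hμ).of_norm.tsum_add
        (((s4.mul_left 2).add s5).mul_left _), cv_tsum hv hμ, h1, mul_one, tsum_mul_left,
        (s4.mul_left 2).tsum_add s5, tsum_mul_left, tsum_right (mseq μ n) g,
        mseq_tsum h0 hs h1]
      congr 4
      rw [← tsum_right (zseq μ ψ g c n) g, ← tsum_mul_left]
      exact (Complex.reCLM.map_tsum s3).symm
    rw [e1]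
    have h2 : (starRingEnd ℂ c * ψ g * ∑' u, zseq μ ψ g c n u).re
        ≤ μ g / (1 - ‖∑' x, (μ x : ℂ) * ψ x‖) := by
      refine (Complex.re_le_norm _).trans ?_
      rw [norm_mul, norm_mul, RCLike.norm_conj, hc, hψ, one_mul, one_mul]
      exact zseq_tsum_bound h0 hs h1 hψ hc hq n
    have h3 := h0 g
    push_cast
    nlinarith [mul_le_mul_of_nonneg_left h2 h3]

/-- The `ℓ¹` norm of `z_n` is `O(√n)`. -/
theorem zseq_norm_bound (h0 : ∀ x, 0 ≤ μ x) (hs : Summable μ) (h1 : ∑' x, μ x = 1)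
    (hψ : ∀ x, ‖ψ x‖ = 1) (hc : ‖c‖ = 1) (hq : ‖∑' x, (μ x : ℂ) * ψ x‖ < 1) (n : ℕ) :
    (∑' u, ‖zseq μ ψ g c n u‖) ^ 2
      ≤ n * (μ g * (2 * (μ g / (1 - ‖∑' x, (μ x : ℂ) * ψ x‖)) + 1)) := by
  obtain ⟨h2, h3⟩ := vseq_main (g := g) h0 hs hψ hc n
  have h4 := cs (zseq μ ψ g c n) _ _ (fun u => (h2 u).1) (mseq_nonneg h0 n)
    (fun u => (h2 u).2) h3 (mseq_summable h0 hs n).of_norm
  rw [mseq_tsum h0 hs h1, mul_one] at h4
  exact h4.trans (vseq_tsum_bound h0 hs h1 hψ hc hq n)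

end Seq

end Pool.Agent.V5helper27.CI
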