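import Pool.Agent.V5helper27.CI.Ideals
import Pool.Agent.V5helper27.CI.Moment
import Pool.Agent.H937R3.EllOne

/-!
# `ℓ¹(G)` is the sum of a left ideal and a right ideal with bounded approximate identities
-/

set_option autoImplicit false

namespace Pool.Agent.V5helper27.CI

open Filter Topology H937R3

variable {G : Type*} [DecidableEq G] [Group G]

noncomputable instance instComplete : CompleteSpace (EllOne G) :=
  inferInstanceAs (CompleteSpace (L1 G))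

instance instNormOne : NormOneClass (EllOne G) := ⟨EllOne.norm_delta 1⟩

omit [DecidableEq G] [Group G] in
lemma memlp_one {f : G → ℂ} (hf : Summable fun x => ‖f x‖) : Memℓp f 1 := by
  refine memℓp_gen ?_
  simpa using hf

/-- the element of `ℓ¹(G)` with given coefficients -/
noncomputable def el (f : G → ℂ) (hf : Summable fun x => ‖f x‖) : EllOne G :=
  (⟨f, memlp_one hf⟩ : L1 G)

omit [DecidableEq G] [Group G] in
@[simp] lemma coeff_el (f : G → ℂ) (hf : Summable fun x => ‖f x‖) (x : G) :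
    EllOne.coeff (el f hf) x = f x := rfl

lemma norm_el (f : G → ℂ) (hf : Summable fun x => ‖f x‖) : ‖el f hf‖ = ∑' x, ‖f x‖ :=
  EllOne.norm_eq _

omit [DecidableEq G] [Group G] in
lemma ext_coeff {f h : EllOne G} (hfh : ∀ x, EllOne.coeff f x = EllOne.coeff h x) : f = h := by
  apply Subtype.ext
  funext x
  exact hfh x

lemma coeff_add (f h : EllOne G) (x : G) :
    EllOne.coeff (f + h) x = EllOne.coeff f x + EllOne.coeff h x := rfl

lemma coeff_sub (f h : EllOne G) (x : G) :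
    EllOne.coeff (f - h) x = EllOne.coeff f x - EllOne.coeff h x := rfl

lemma coeff_smul (c : ℂ) (f : EllOne G) (x : G) :
    EllOne.coeff (c • f) x = c * EllOne.coeff f x := rfl

lemma coeff_zero (x : G) : EllOne.coeff (0 : EllOne G) x = 0 := rfl

lemma coeff_delta (x y : G) : EllOne.coeff (EllOne.delta x) y = if y = x then 1 else 0 :=
  L1.delta_apply x y

lemma coeff_one (y : G) : EllOne.coeff (1 : EllOne G) y = if y = 1 then 1 else 0 :=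
  L1.delta_apply 1 y

lemma summable_coeff (f : EllOne G) : Summable fun x => ‖EllOne.coeff f x‖ :=
  L1.summable_norm (f : L1 G)

lemma coeff_mul_delta (f : EllOne G) (g u : G) :
    EllOne.coeff (f * EllOne.delta g) u = EllOne.coeff f (u * g⁻¹) := by
  rw [EllOne.conv_apply, tsum_eq_single (u * g⁻¹)]
  · rw [coeff_delta, if_pos (by group), mul_one]
  · intro x hx
    rw [coeff_delta, if_neg, mul_zero]
    intro h
    apply hx
    rw [← h]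
    group

/-- the twisted measure `∑ μ(x) conj(φ(x)) δ_x` -/
noncomputable def tw (μ : G → ℝ) (φ : G →* ℂ) (h : Summable fun x => ‖(μ x : ℂ) * starRingEnd ℂ (φ x)‖) :
    EllOne G := el _ h

omit [DecidableEq G] in
lemma tw_summable {μ : G → ℝ} (hs : Summable μ) (h0 : ∀ x, 0 ≤ μ x) {φ : G →* ℂ}
    (hφ : ∀ x, ‖φ x‖ = 1) : Summable fun x => ‖(μ x : ℂ) * starRingEnd ℂ (φ x)‖ := by
  refine hs.congr fun x => ?_
  rw [norm_mul, RCLike.norm_conj, hφ, mul_one, Complex.norm_real, Real.norm_of_nonneg (h0 x)]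

lemma norm_tw {μ : G → ℝ} (hs : Summable μ) (h0 : ∀ x, 0 ≤ μ x) (h1 : ∑' x, μ x = 1)
    {φ : G →* ℂ} (hφ : ∀ x, ‖φ x‖ = 1) : ‖tw μ φ (tw_summable hs h0 hφ)‖ = 1 := by
  unfold tw
  rw [norm_el, ← h1]
  refine tsum_congr fun x => ?_
  rw [norm_mul, RCLike.norm_conj, hφ, mul_one, Complex.norm_real, Real.norm_of_nonneg (h0 x)]

lemma conj_mul_self {z : ℂ} (h : ‖z‖ = 1) : starRingEnd ℂ z * z = 1 := by
  rw [mul_comm, Complex.mul_conj, Complex.normSq_eq_norm_sq, h]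
  norm_num

/-- the coefficients of the powers of the twisted measure -/
lemma coeff_tw_pow {μ : G → ℝ} (hs : Summable μ) (h0 : ∀ x, 0 ≤ μ x) {φ : G →* ℂ}
    (hφ : ∀ x, ‖φ x‖ = 1) (n : ℕ) (u : G) :
    φ u * EllOne.coeff (tw μ φ (tw_summable hs h0 hφ) ^ n) u = mseq μ n u := by
  induction n generalizing u with
  | zero =>
    rw [pow_zero, coeff_one]
    simp only [mseq]
    by_cases hu : u = 1
    · subst hu; simp
    · simp [hu]
  | succ n ih =>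
    rw [pow_succ, EllOne.conv_apply, ← tsum_mul_left]
    simp only [mseq, cv]
    rw [Complex.ofReal_tsum]
    refine tsum_congr fun x => ?_
    rw [Complex.ofReal_mul, ← ih x]
    have h1 : φ u = φ x * φ (x⁻¹ * u) := by rw [← map_mul]; congr 1; group
    have h2 : EllOne.coeff (tw μ φ (tw_summable hs h0 hφ)) (x⁻¹ * u)
        = (μ (x⁻¹ * u) : ℂ) * starRingEnd ℂ (φ (x⁻¹ * u)) := rfl
    rw [h2, h1]
    have h3 := conj_mul_self (hφ (x⁻¹ * u))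
    linear_combination (φ x * EllOne.coeff (tw μ φ (tw_summable hs h0 hφ) ^ n) x
      * (μ (x⁻¹ * u) : ℂ)) * h3

/-- `Y_n = ∑_{i<n} ν₁^i δ_g ν₂^{n-1-i}` -/
noncomputable def Yn {A : Type*} [Ring A] (ν₁ ν₂ d : A) (n : ℕ) : A :=
  ∑ i ∈ Finset.range n, ν₁ ^ i * d * ν₂ ^ (n - 1 - i)

lemma Yn_succ {A : Type*} [Ring A] (ν₁ ν₂ d : A) (n : ℕ) :
    Yn ν₁ ν₂ d (n + 1) = Yn ν₁ ν₂ d n * ν₂ + ν₁ ^ n * d := by
  unfold Yn
  rw [Finset.sum_range_succ, Finset.sum_mul]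
  congr 1
  · refine Finset.sum_congr rfl fun i hi => ?_
    have hi' := Finset.mem_range.mp hi
    have h : n + 1 - 1 - i = (n - 1 - i) + 1 := by omega
    rw [h, pow_succ, ← mul_assoc]
  · have h : n + 1 - 1 - n = 0 := by omega
    rw [h, pow_zero, mul_one]

lemma coeff_Yn {μ : G → ℝ} (hs : Summable μ) (h0 : ∀ x, 0 ≤ μ x) {φ₁ φ₂ : G →* ℂ}
    (hφ₁ : ∀ x, ‖φ₁ x‖ = 1) (hφ₂ : ∀ x, ‖φ₂ x‖ = 1) (g : G) (n : ℕ) (u : G) :
    φ₁ u * (μ g * EllOne.coeff (Yn (tw μ φ₁ (tw_summable hs h0 hφ₁))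
      (tw μ φ₂ (tw_summable hs h0 hφ₂)) (EllOne.delta g) n) u)
      = zseq μ (fun y => φ₁ y * starRingEnd ℂ (φ₂ y)) g (φ₁ g) n u := by
  induction n generalizing u with
  | zero => simp [Yn, zseq, coeff_zero]
  | succ n ih =>
    rw [Yn_succ, coeff_add, coeff_mul_delta, EllOne.conv_apply]
    simp only [zseq]
    rw [mul_add, mul_add]
    congr 1
    · simp only [cv]
      rw [← tsum_mul_left, ← tsum_mul_left]
      refine tsum_congr fun x => ?_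
      rw [← ih x]
      have h1 : φ₁ u = φ₁ x * φ₁ (x⁻¹ * u) := by rw [← map_mul]; congr 1; group
      have h2 : EllOne.coeff (tw μ φ₂ (tw_summable hs h0 hφ₂)) (x⁻¹ * u)
          = (μ (x⁻¹ * u) : ℂ) * starRingEnd ℂ (φ₂ (x⁻¹ * u)) := rfl
      rw [h2, h1]
      ring
    · have h3 := coeff_tw_pow hs h0 hφ₁ n (u * g⁻¹)
      rw [← h3]
      have h1 : φ₁ u = φ₁ (u * g⁻¹) * φ₁ g := by rw [← map_mul]; congr 1; group
      rw [h1]
      ring

lemma norm_Yn_sq {μ : G → ℝ} (hs : Summable μ) (h0 : ∀ x, 0 ≤ μ x) (h1 : ∑' x, μ x = 1)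
    {φ₁ φ₂ : G →* ℂ} (hφ₁ : ∀ x, ‖φ₁ x‖ = 1) (hφ₂ : ∀ x, ‖φ₂ x‖ = 1)
    (hq : ‖∑' x, (μ x : ℂ) * (φ₁ x * starRingEnd ℂ (φ₂ x))‖ < 1) (g : G) (hg : 0 < μ g) (n : ℕ) :
    ‖Yn (tw μ φ₁ (tw_summable hs h0 hφ₁)) (tw μ φ₂ (tw_summable hs h0 hφ₂))
      (EllOne.delta g) n‖ ^ 2 * μ g
      ≤ n * (2 * (μ g / (1 - ‖∑' x, (μ x : ℂ) * (φ₁ x * starRingEnd ℂ (φ₂ x))‖)) + 1) := by
  have hψ : ∀ x, ‖(fun y => φ₁ y * starRingEnd ℂ (φ₂ y)) x‖ = 1 := by
    intro x; simp only [norm_mul, RCLike.norm_conj, hφ₁, hφ₂, mul_one]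
  have h := zseq_norm_bound (g := g) (c := φ₁ g) h0 hs h1 hψ (hφ₁ g) hq n
  have h2 : ∑' u, ‖zseq μ (fun y => φ₁ y * starRingEnd ℂ (φ₂ y)) g (φ₁ g) n u‖
      = μ g * ‖Yn (tw μ φ₁ (tw_summable hs h0 hφ₁)) (tw μ φ₂ (tw_summable hs h0 hφ₂))
      (EllOne.delta g) n‖ := by
    rw [EllOne.norm_eq, ← tsum_mul_left]
    refine tsum_congr fun u => ?_
    rw [← coeff_Yn hs h0 hφ₁ hφ₂ g n u, norm_mul, norm_mul, hφ₁, one_mul, Complex.norm_real,
      Real.norm_of_nonneg (h0 g)]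
  rw [h2] at h
  set y := ‖Yn (tw μ φ₁ (tw_summable hs h0 hφ₁)) (tw μ φ₂ (tw_summable hs h0 hφ₂))
      (EllOne.delta g) n‖
  have h3 : μ g * (y ^ 2 * μ g) ≤ μ g * (n * (2 * (μ g
      / (1 - ‖∑' x, (μ x : ℂ) * (φ₁ x * starRingEnd ℂ (φ₂ x))‖)) + 1)) := by
    nlinarith
  exact le_of_mul_le_mul_left h3 hg

/-- for every `g` there is `N ≥ 1` with `‖Y_N‖ ≤ N / 2` -/
lemma exists_small {μ : G → ℝ} (hs : Summable μ) (h0 : ∀ x, 0 ≤ μ x) (h1 : ∑' x, μ x = 1)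
    {φ₁ φ₂ : G →* ℂ} (hφ₁ : ∀ x, ‖φ₁ x‖ = 1) (hφ₂ : ∀ x, ‖φ₂ x‖ = 1)
    (hq : ‖∑' x, (μ x : ℂ) * (φ₁ x * starRingEnd ℂ (φ₂ x))‖ < 1) (g : G) (hg : 0 < μ g) :
    ∃ N : ℕ, 1 ≤ N ∧ ‖Yn (tw μ φ₁ (tw_summable hs h0 hφ₁)) (tw μ φ₂ (tw_summable hs h0 hφ₂))
      (EllOne.delta g) N‖ ≤ N / 2 := by
  set K : ℝ := 2 * (μ g / (1 - ‖∑' x, (μ x : ℂ) * (φ₁ x * starRingEnd ℂ (φ₂ x))‖)) + 1 with hK
  have hK0 : 0 < K := by
    have : 0 ≤ μ g / (1 - ‖∑' x, (μ x : ℂ) * (φ₁ x * starRingEnd ℂ (φ₂ x))‖) :=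
      div_nonneg (h0 g) (by linarith)
    linarith
  obtain ⟨N, hN⟩ := exists_nat_gt (4 * K / μ g)
  have hN0 : (0 : ℝ) < N := lt_trans (by positivity) hN
  refine ⟨N, by exact_mod_cast Nat.pos_of_ne_zero (by rintro rfl; simp at hN0), ?_⟩
  have h := norm_Yn_sq hs h0 h1 hφ₁ hφ₂ hq g hg N
  rw [← hK] at h
  set y := ‖Yn (tw μ φ₁ (tw_summable hs h0 hφ₁)) (tw μ φ₂ (tw_summable hs h0 hφ₂))
      (EllOne.delta g) N‖ with hy
  have hy0 : 0 ≤ y := norm_nonneg _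
  rw [div_lt_iff₀ hg] at hN
  by_contra hlt
  push Not at hlt
  have h5 : (N : ℝ) / 2 * (N / 2) < y * y := by nlinarith
  have h6 : (N : ℝ) / 2 * (N / 2) * μ g < y ^ 2 * μ g := by nlinarith
  have h7 : (N : ℝ) * (N * μ g) < N * (4 * K) := by nlinarith
  have h8 := lt_of_mul_lt_mul_left h7 hN0.le
  linarith

/-- the decomposition of `d` modulo `Y_N / N` -/
lemma decomp_identity {A : Type*} [NormedRing A] [NormedAlgebra ℂ A] (ν₁ ν₂ d : A) (N : ℕ)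
    (hN : 1 ≤ N) :
    d = ((N : ℂ)⁻¹ • ∑ i ∈ Finset.range N, (d - d * ν₂ ^ (N - 1 - i)))
      + ((N : ℂ)⁻¹ • ∑ i ∈ Finset.range N, (d * ν₂ ^ (N - 1 - i) - ν₁ ^ i * (d * ν₂ ^ (N - 1 - i))))
      + (N : ℂ)⁻¹ • Yn ν₁ ν₂ d N := by
  unfold Yn
  rw [← smul_add, ← smul_add, ← Finset.sum_add_distrib, ← Finset.sum_add_distrib]
  have h : ∀ i ∈ Finset.range N, d - d * ν₂ ^ (N - 1 - i)
      + (d * ν₂ ^ (N - 1 - i) - ν₁ ^ i * (d * ν₂ ^ (N - 1 - i)))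
      + ν₁ ^ i * d * ν₂ ^ (N - 1 - i) = d := by
    intro i _
    rw [mul_assoc]
    abel
  rw [Finset.sum_congr rfl h, Finset.sum_const, Finset.card_range, ← Nat.cast_smul_eq_nsmul ℂ,
    smul_smul, inv_mul_cancel₀ (by exact_mod_cast (Nat.one_le_iff_ne_zero.mp hN)), one_smul]

/-- the identity of `ℓ¹(G)` with the underlying Banach space -/
def toL1 (f : EllOne G) : L1 G := f

/-- the identity of `ℓ¹(G)` with the underlying Banach space -/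
def ofL1 (f : L1 G) : EllOne G := f

omit [DecidableEq G] [Group G] in
lemma ofL1_toL1 (f : EllOne G) : ofL1 (toL1 f) = f := rfl

lemma ofL1_add (f h : L1 G) : ofL1 (f + h) = ofL1 f + ofL1 h := rfl

lemma ofL1_smul (c : ℂ) (f : L1 G) : ofL1 (c • f) = c • ofL1 f := rfl

lemma ofL1_sum {ι : Type*} (s : Finset ι) (f : ι → L1 G) :
    ofL1 (∑ i ∈ s, f i) = ∑ i ∈ s, ofL1 (f i) := by
  classical
  induction s using Finset.induction_on with
  | empty => rfl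
  | insert a s ha ih => rw [Finset.sum_insert ha, Finset.sum_insert ha, ofL1_add, ih]

lemma lift_mem (v : G → L1 G) (C : ℝ) (hv : ∀ x, ‖v x‖ ≤ C) (K : Submodule ℂ (EllOne G))
    (hK : IsClosed (K : Set (EllOne G)))
    (hvK : ∀ x, ofL1 (v x) ∈ K) (f : L1 G) : ofL1 (L1.lift v C hv f) ∈ K := by
  have h1 : L1.lift v C hv f = ∑' x, f x • v x := rfl
  have h2 : Summable fun x => f x • v x := L1.summable_lift v C hv f
  have h3 : Tendsto (fun s : Finset G => ofL1 (∑ x ∈ s, f x • v x)) atTop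
      (𝓝 (ofL1 (L1.lift v C hv f))) := by
    rw [h1]; exact h2.hasSum
  refine hK.mem_of_tendsto h3 (Eventually.of_forall fun s => ?_)
  rw [ofL1_sum]
  exact K.sum_mem fun x _ => by rw [ofL1_smul]; exact K.smul_mem _ (hvK x)

lemma norm_avg_diff_le {A : Type*} [NormedRing A] [NormedAlgebra ℂ A] [NormOneClass A] (N : ℕ)
    (hN : 1 ≤ N) (v : ℕ → A) (hv : ∀ i, ‖v i‖ ≤ 2) :
    ‖(N : ℂ)⁻¹ • ∑ i ∈ Finset.range N, v i‖ ≤ 2 := by
  have hN0 : (0 : ℝ) < N := by exact_mod_cast hN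
  rw [norm_smul, norm_inv, Complex.norm_natCast, inv_mul_le_iff₀ hN0]
  refine (norm_sum_le _ _).trans ?_
  refine (Finset.sum_le_sum fun i _ => hv i).trans ?_
  simp

/-- **Decomposition.** `ℓ¹(G) = JR ν₂ + JL ν₁`. -/
theorem decomp {μ : G → ℝ} (hs : Summable μ) (hpos : ∀ x, 0 < μ x) (h1 : ∑' x, μ x = 1)
    {φ₁ φ₂ : G →* ℂ} (hφ₁ : ∀ x, ‖φ₁ x‖ = 1) (hφ₂ : ∀ x, ‖φ₂ x‖ = 1)
    (hq : ‖∑' x, (μ x : ℂ) * (φ₁ x * starRingEnd ℂ (φ₂ x))‖ < 1) (f : EllOne G) :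
    ∃ a ∈ JR (tw μ φ₂ (tw_summable hs (fun x => (hpos x).le) hφ₂)),
    ∃ b ∈ JL (tw μ φ₁ (tw_summable hs (fun x => (hpos x).le) hφ₁)), f = a + b := by
  set h0 : ∀ x, 0 ≤ μ x := fun x => (hpos x).le
  set ν₁ := tw μ φ₁ (tw_summable hs h0 hφ₁) with hν₁
  set ν₂ := tw μ φ₂ (tw_summable hs h0 hφ₂) with hν₂
  have n1 : ‖ν₁‖ ≤ 1 := (norm_tw hs h0 h1 hφ₁).le
  have n2 : ‖ν₂‖ ≤ 1 := (norm_tw hs h0 h1 hφ₂).le
  choose N hN1 hN2 using fun g => exists_small hs h0 h1 hφ₁ hφ₂ hq g (hpos g)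
  rw [← hν₁, ← hν₂] at hN2
  let va : G → EllOne G := fun g => ((N g : ℂ)⁻¹ • ∑ i ∈ Finset.range (N g),
    (EllOne.delta g - EllOne.delta g * ν₂ ^ (N g - 1 - i)))
  let vb : G → EllOne G := fun g => ((N g : ℂ)⁻¹ • ∑ i ∈ Finset.range (N g),
    (EllOne.delta g * ν₂ ^ (N g - 1 - i) - ν₁ ^ i * (EllOne.delta g * ν₂ ^ (N g - 1 - i))))
  let ve : G → EllOne G := fun g => (N g : ℂ)⁻¹ • Yn ν₁ ν₂ (EllOne.delta g) (N g)
  have hdn : ∀ (g : G) (k : ℕ), ‖(EllOne.delta g : EllOne G) * ν₂ ^ k‖ ≤ 1 := by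
    intro g k
    refine (norm_mul_le _ _).trans ?_
    rw [EllOne.norm_delta, one_mul]
    exact norm_pow_le_one n2 k
  have hva : ∀ g, ‖va g‖ ≤ 2 := by
    intro g
    refine norm_avg_diff_le (N g) (hN1 g) _ fun i => ?_
    refine (norm_sub_le _ _).trans ?_
    rw [EllOne.norm_delta]
    linarith [hdn g (N g - 1 - i)]
  have hvb : ∀ g, ‖vb g‖ ≤ 2 := by
    intro g
    refine norm_avg_diff_le (N g) (hN1 g) _ fun i => ?_
    refine (norm_sub_le _ _).trans ?_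
    have h3 : ‖ν₁ ^ i * (EllOne.delta g * ν₂ ^ (N g - 1 - i))‖ ≤ 1 := by
      refine (norm_mul_le _ _).trans ?_
      exact mul_le_one₀ (norm_pow_le_one n1 i) (norm_nonneg _) (hdn g _)
    linarith [hdn g (N g - 1 - i)]
  have hve : ∀ g, ‖ve g‖ ≤ 1 / 2 := by
    intro g
    have hN0 : (0 : ℝ) < N g := by exact_mod_cast hN1 g
    simp only [ve]
    rw [norm_smul, norm_inv, Complex.norm_natCast, inv_mul_le_iff₀ hN0]
    have := hN2 g
    linarith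
  let P : L1 G →L[ℂ] L1 G := L1.lift (fun g => toL1 (va g)) 2 hva
  let Q : L1 G →L[ℂ] L1 G := L1.lift (fun g => toL1 (vb g)) 2 hvb
  let E : L1 G →L[ℂ] L1 G := L1.lift (fun g => toL1 (ve g)) (1 / 2) hve
  have hsum : P + Q + E = 1 := by
    refine L1.clm_ext fun g => ?_
    change P (L1.delta g) + Q (L1.delta g) + E (L1.delta g) = L1.delta g
    have e1 : P (L1.delta g) = toL1 (va g) := L1.lift_delta (fun g => toL1 (va g)) 2 hva g
    have e2 : Q (L1.delta g) = toL1 (vb g) := L1.lift_delta (fun g => toL1 (vb g)) 2 hvb g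
    have e3 : E (L1.delta g) = toL1 (ve g) := L1.lift_delta (fun g => toL1 (ve g)) (1 / 2) hve g
    rw [e1, e2, e3]
    exact (decomp_identity ν₁ ν₂ (EllOne.delta g) (N g) (hN1 g)).symm
  have hE : ‖E‖ < 1 :=
    lt_of_le_of_lt (L1.norm_lift_le (fun g => toL1 (ve g)) (1 / 2) (by norm_num) hve) (by norm_num)
  have hinv := mul_neg_geom_series E hE
  set S : L1 G →L[ℂ] L1 G := ∑' i : ℕ, E ^ i with hS
  have hf : toL1 f = P (S (toL1 f)) + Q (S (toL1 f)) := by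
    have h3 : (1 - E) = P + Q := by rw [← hsum]; abel
    rw [h3] at hinv
    have h4 := congrArg (fun T : L1 G →L[ℂ] L1 G => T (toL1 f)) hinv
    exact h4.symm
  refine ⟨ofL1 (P (S (toL1 f))), ?_, ofL1 (Q (S (toL1 f))), ?_, hf⟩
  · refine lift_mem (fun g => toL1 (va g)) 2 hva _ (isClosed_JR n2) (fun g => ?_) _
    exact Submodule.smul_mem _ _ (Submodule.sum_mem _ fun i _ => sub_mul_pow_mem_JR n2 _ _)
  · refine lift_mem (fun g => toL1 (vb g)) 2 hvb _ (isClosed_JL n1) (fun g => ?_) _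
    exact Submodule.smul_mem _ _ (Submodule.sum_mem _ fun i _ => sub_pow_mul_mem_JL n1 _ _)

end Pool.Agent.V5helper27.CI
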