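import Mathlib

/-!
# Factorization in one-sided ideals with a bounded approximate identity of Cesàro type

If `‖ν‖ ≤ 1` and `f * A_n → 0` for the Cesàro averages `A_n` of the powers of `ν`, then `f = y * b` with
`y` in the closed right ideal generated by `f` and `b` in the closed span of the `1 - ν ^ k`.
-/

set_option autoImplicit false

namespace Pool.Agent.V5helper27.CI

open Filter Topology

variable {A : Type*} [NormedRing A] [NormedAlgebra ℂ A] [NormOneClass A]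

/-- Cesàro averages of the powers. -/
noncomputable def avg (ν : A) (n : ℕ) : A :=
  ((n + 1 : ℕ) : ℂ)⁻¹ • ∑ k ∈ Finset.range (n + 1), ν ^ k

lemma norm_pow_le_one {ν : A} (h : ‖ν‖ ≤ 1) (k : ℕ) : ‖ν ^ k‖ ≤ 1 :=
  (norm_pow_le ν k).trans (pow_le_one₀ (norm_nonneg _) h)

lemma norm_avg_le {ν : A} (h : ‖ν‖ ≤ 1) (n : ℕ) : ‖avg ν n‖ ≤ 1 := by
  unfold avg
  rw [norm_smul, norm_inv, Complex.norm_natCast]
  have h1 : ‖∑ k ∈ Finset.range (n + 1), ν ^ k‖ ≤ ((n + 1 : ℕ) : ℝ) := by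
    refine (norm_sum_le _ _).trans ?_
    refine (Finset.sum_le_sum fun k _ => norm_pow_le_one h k).trans ?_
    simp
  have h2 : (0 : ℝ) < ((n + 1 : ℕ) : ℝ) := by positivity
  rw [inv_mul_le_iff₀ h2]
  linarith

lemma avg_eq_of (ν : A) (n : ℕ) (c : A) :
    c - avg ν n = ((n + 1 : ℕ) : ℂ)⁻¹ • ∑ k ∈ Finset.range (n + 1), (c - ν ^ k) := by
  unfold avg
  rw [Finset.sum_sub_distrib, smul_sub]
  congr 1
  rw [Finset.sum_const, Finset.card_range, ← Nat.cast_smul_eq_nsmul ℂ, smul_smul,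
    inv_mul_cancel₀ (by exact_mod_cast Nat.succ_ne_zero n), one_smul]

lemma one_sub_avg_mem (Q : Submodule ℂ A) (ν : A) (hQ : ∀ k, 1 - ν ^ k ∈ Q) (n : ℕ) :
    1 - avg ν n ∈ Q := by
  rw [avg_eq_of]
  exact Q.smul_mem _ (Q.sum_mem fun k _ => hQ k)

lemma commute_avg (ν : A) (n m : ℕ) : Commute (avg ν n) (avg ν m) := by
  unfold avg
  refine Commute.smul_left (Commute.smul_right ?_ _) _
  refine Commute.sum_left _ _ _ fun i _ => Commute.sum_right _ _ _ fun j _ => ?_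
  exact Commute.pow_pow_self ν i j

variable [CompleteSpace A]

/-- The partial sums `∑_{j<J} 2^{-(j+1)} a_j`. -/
noncomputable def part (a : ℕ → A) (J : ℕ) : A :=
  ∑ j ∈ Finset.range J, ((1 / 2 : ℂ) ^ (j + 1)) • a j

omit [CompleteSpace A] in
lemma norm_part_le (a : ℕ → A) (ha : ∀ j, ‖a j‖ ≤ 1) (J : ℕ) :
    ‖part a J‖ ≤ 1 - (1 / 2 : ℝ) ^ J := by
  induction J with
  | zero => simp [part]
  | succ J ih =>
    have h : part a (J + 1) = part a J + ((1 / 2 : ℂ) ^ (J + 1)) • a J := by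
      unfold part; rw [Finset.sum_range_succ]
    rw [h]
    refine (norm_add_le _ _).trans ?_
    have h2 : ‖((1 / 2 : ℂ) ^ (J + 1)) • a J‖ ≤ (1 / 2 : ℝ) ^ (J + 1) := by
      rw [norm_smul, norm_pow]
      have : ‖(1 / 2 : ℂ)‖ = 1 / 2 := by simp
      rw [this]
      have := ha J
      have h3 : (0 : ℝ) ≤ (1 / 2 : ℝ) ^ (J + 1) := by positivity
      nlinarith
    have h4 : (1 / 2 : ℝ) ^ (J + 1) = (1 / 2 : ℝ) ^ J / 2 := by rw [pow_succ]; ring
    linarith

omit [CompleteSpace A] in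
lemma norm_part_lt (a : ℕ → A) (ha : ∀ j, ‖a j‖ ≤ 1) (J : ℕ) : ‖part a J‖ < 1 := by
  have := norm_part_le a ha J
  have h : (0 : ℝ) < (1 / 2 : ℝ) ^ J := by positivity
  linarith

lemma norm_geom_le (a : ℕ → A) (ha : ∀ j, ‖a j‖ ≤ 1) (J : ℕ) :
    ‖∑' m : ℕ, (part a J) ^ m‖ ≤ 2 ^ J := by
  have h := tsum_geometric_le_of_norm_lt_one (part a J) (norm_part_lt a ha J)
  rw [norm_one] at h
  refine h.trans ?_
  have h1 := norm_part_le a ha J
  have h2 : (0 : ℝ) < (1 / 2 : ℝ) ^ J := by positivity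
  have h3 : (1 - ‖part a J‖)⁻¹ ≤ ((1 / 2 : ℝ) ^ J)⁻¹ :=
    inv_anti₀ h2 (by linarith)
  have h4 : ((1 / 2 : ℝ) ^ J)⁻¹ = 2 ^ J := by
    rw [← inv_pow]; norm_num
  linarith

lemma part_tendsto (a : ℕ → A) (ha : ∀ j, ‖a j‖ ≤ 1) (Q : Submodule ℂ A)
    (hQc : IsClosed (Q : Set A)) (hQ : ∀ j, 1 - a j ∈ Q) :
    ∃ b ∈ Q, Tendsto (fun J => 1 - part a J) atTop (𝓝 b) := by
  have hs : Summable fun j : ℕ => ((1 / 2 : ℂ) ^ (j + 1)) • (1 - a j) := by
    refine Summable.of_norm_bounded (g := fun j : ℕ => (1 / 2 : ℝ) ^ j) ?_ ?_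
    · exact summable_geometric_of_lt_one (by norm_num) (by norm_num)
    · intro j
      rw [norm_smul, norm_pow]
      have : ‖(1 / 2 : ℂ)‖ = 1 / 2 := by simp
      rw [this]
      have h1 : ‖(1 : A) - a j‖ ≤ 2 := by
        refine (norm_sub_le _ _).trans ?_
        rw [norm_one]
        have := ha j
        linarith
      have h3 : (0 : ℝ) ≤ (1 / 2 : ℝ) ^ j := by positivity
      rw [pow_succ]
      nlinarith
  refine ⟨∑' j : ℕ, ((1 / 2 : ℂ) ^ (j + 1)) • (1 - a j), ?_, ?_⟩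
  · have h := hs.hasSum.tendsto_sum_nat
    refine hQc.mem_of_tendsto h (Eventually.of_forall fun J => ?_)
    exact Q.sum_mem fun j _ => Q.smul_mem _ (hQ j)
  · have h := hs.hasSum.tendsto_sum_nat
    have h2 : Tendsto (fun J : ℕ => ((1 / 2 : ℂ) ^ J) • (1 : A)) atTop (𝓝 ((0 : ℂ) • (1 : A))) := by
      refine Tendsto.smul_const ?_ _
      exact tendsto_pow_atTop_nhds_zero_of_norm_lt_one (by norm_num)
    have h3 := h.add h2
    rw [zero_smul, add_zero] at h3
    refine h3.congr fun J => ?_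
    have key : ∀ J : ℕ, ∑ j ∈ Finset.range J, ((1 / 2 : ℂ) ^ (j + 1)) • (1 - a j)
        + ((1 / 2 : ℂ) ^ J) • (1 : A) = 1 - part a J := by
      intro J
      induction J with
      | zero => simp [part]
      | succ J ih =>
        have h : part a (J + 1) = part a J + ((1 / 2 : ℂ) ^ (J + 1)) • a J := by
          unfold part; rw [Finset.sum_range_succ]
        rw [h, Finset.sum_range_succ, ← sub_sub, ← ih, smul_sub]
        have h5 : ((1 / 2 : ℂ) ^ J) • (1 : A) = ((1 / 2 : ℂ) ^ (J + 1)) • (1 : A)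
            + ((1 / 2 : ℂ) ^ (J + 1)) • (1 : A) := by
          rw [← add_smul]
          congr 1
          rw [pow_succ]; ring
        rw [h5]
        abel
    exact key J

/-- **Factorization, right version.** -/
theorem factor_right (P Q : Submodule ℂ A) (hP : IsClosed (P : Set A))
    (hQ : IsClosed (Q : Set A)) (hPm : ∀ x ∈ P, ∀ a : A, x * a ∈ P) (ν : A) (hν : ‖ν‖ ≤ 1)
    (hQν : ∀ k, 1 - ν ^ k ∈ Q) (f : A) (hf : f ∈ P)
    (hlim : Tendsto (fun n => f * avg ν n) atTop (𝓝 0)) :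
    ∃ y ∈ P, ∃ b ∈ Q, f = y * b := by
  have hex : ∀ j : ℕ, ∃ n : ℕ, ‖f * avg ν n‖ ≤ (1 / 4 : ℝ) ^ j := by
    intro j
    have h1 : ∀ᶠ n in atTop, ‖f * avg ν n‖ < (1 / 4 : ℝ) ^ j := by
      have h2 := hlim.norm
      rw [norm_zero] at h2
      exact h2.eventually_lt_const (by positivity)
    obtain ⟨n, hn⟩ := h1.exists
    exact ⟨n, hn.le⟩
  choose n hn using hex
  set a : ℕ → A := fun j => avg ν (n j) with ha_def
  have ha : ∀ j, ‖a j‖ ≤ 1 := fun j => norm_avg_le hν _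
  obtain ⟨b, hbQ, hb⟩ := part_tendsto a ha Q hQ fun j => one_sub_avg_mem Q ν hQν _
  -- the inverses
  set g : ℕ → A := fun J => ∑' m : ℕ, (part a J) ^ m with hg_def
  have hg1 : ∀ J, (1 - part a J) * g J = 1 := fun J => mul_neg_geom_series _ (norm_part_lt a ha J)
  have hg2 : ∀ J, g J * (1 - part a J) = 1 := fun J => geom_series_mul_neg _ (norm_part_lt a ha J)
  have hgn : ∀ J, ‖g J‖ ≤ 2 ^ J := fun J => norm_geom_le a ha J
  have hstep : ∀ J, part a (J + 1) = part a J + ((1 / 2 : ℂ) ^ (J + 1)) • a J := by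
    intro J
    unfold part; rw [Finset.sum_range_succ]
  have hcomm : ∀ J, Commute (a J) (part a J) := by
    intro J
    unfold part
    refine Commute.sum_right _ _ _ fun j _ => Commute.smul_right ?_ _
    exact commute_avg ν _ _
  have hcomm2 : ∀ J, a J * g J = g J * a J := by
    intro J
    have h1 : a J * (1 - part a J) = (1 - part a J) * a J := by
      rw [mul_sub, sub_mul, mul_one, one_mul, (hcomm J).eq]
    calc a J * g J = (g J * (1 - part a J)) * (a J * g J) := by rw [hg2, one_mul]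
      _ = g J * (((1 - part a J) * a J) * g J) := by simp only [mul_assoc]
      _ = g J * ((a J * (1 - part a J)) * g J) := by rw [h1]
      _ = g J * a J * ((1 - part a J) * g J) := by simp only [mul_assoc]
      _ = g J * a J := by rw [hg1, mul_one]
  have hdiff : ∀ J, g (J + 1) - g J = ((1 / 2 : ℂ) ^ (J + 1)) • (a J * g J * g (J + 1)) := by
    intro J
    have h1 : g J * ((1 - part a J) - (1 - part a (J + 1))) * g (J + 1)
        = g (J + 1) - g J := by
      rw [mul_sub, sub_mul, hg2, one_mul, mul_assoc, hg1, mul_one]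
    rw [← h1, hstep J, hcomm2 J]
    have h2 : (1 - part a J) - (1 - (part a J + ((1 / 2 : ℂ) ^ (J + 1)) • a J))
        = ((1 / 2 : ℂ) ^ (J + 1)) • a J := by abel
    rw [h2, mul_smul_comm, smul_mul_assoc]
  have hbound : ∀ J, dist (f * g J) (f * g (J + 1)) ≤ 1 * (1 / 2 : ℝ) ^ J := by
    intro J
    rw [dist_comm, dist_eq_norm, ← mul_sub, hdiff J, mul_smul_comm, norm_smul, norm_pow]
    have h0 : ‖(1 / 2 : ℂ)‖ = 1 / 2 := by simp
    rw [h0]
    have h1 : ‖f * (a J * g J * g (J + 1))‖ ≤ (1 / 4 : ℝ) ^ J * 2 ^ J * 2 ^ (J + 1) := by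
      calc ‖f * (a J * g J * g (J + 1))‖ = ‖(f * a J) * g J * g (J + 1)‖ := by
            simp only [mul_assoc]
        _ ≤ ‖(f * a J) * g J‖ * ‖g (J + 1)‖ := norm_mul_le _ _
        _ ≤ (‖f * a J‖ * ‖g J‖) * ‖g (J + 1)‖ := by gcongr; exact norm_mul_le _ _
        _ ≤ ((1 / 4 : ℝ) ^ J * 2 ^ J) * 2 ^ (J + 1) := by
            gcongr
            · exact hn J
            · exact hgn J
            · exact hgn (J + 1)
    have h2 : (1 / 2 : ℝ) ^ (J + 1) * ((1 / 4 : ℝ) ^ J * 2 ^ J * 2 ^ (J + 1)) = (1 / 2 : ℝ) ^ J := by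
      have e1 : (1 / 2 : ℝ) ^ (J + 1) * 2 ^ (J + 1) = 1 := by
        rw [← mul_pow]; norm_num
      have e2 : (1 / 4 : ℝ) ^ J * 2 ^ J = (1 / 2 : ℝ) ^ J := by
        rw [← mul_pow]; norm_num
      calc (1 / 2 : ℝ) ^ (J + 1) * ((1 / 4 : ℝ) ^ J * 2 ^ J * 2 ^ (J + 1))
          = ((1 / 2 : ℝ) ^ (J + 1) * 2 ^ (J + 1)) * ((1 / 4 : ℝ) ^ J * 2 ^ J) := by ring
        _ = (1 / 2 : ℝ) ^ J := by rw [e1, e2, one_mul]
    rw [one_mul, ← h2]
    gcongr
  have hcau : CauchySeq fun J => f * g J :=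
    cauchySeq_of_le_geometric (1 / 2 : ℝ) 1 (by norm_num) hbound
  obtain ⟨y, hy⟩ := cauchySeq_tendsto_of_complete hcau
  refine ⟨y, ?_, b, hbQ, ?_⟩
  · exact hP.mem_of_tendsto hy (Eventually.of_forall fun J => hPm f hf _)
  · have h1 : Tendsto (fun J => (f * g J) * (1 - part a J)) atTop (𝓝 (y * b)) := hy.mul hb
    have h2 : ∀ J, (f * g J) * (1 - part a J) = f := by
      intro J; rw [mul_assoc, hg2, mul_one]
    simp only [h2] at h1
    exact tendsto_nhds_unique tendsto_const_nhds h1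

/-- **Factorization, left version.** -/
theorem factor_left (P Q : Submodule ℂ A) (hP : IsClosed (P : Set A))
    (hQ : IsClosed (Q : Set A)) (hPm : ∀ x ∈ P, ∀ a : A, a * x ∈ P) (ν : A) (hν : ‖ν‖ ≤ 1)
    (hQν : ∀ k, 1 - ν ^ k ∈ Q) (f : A) (hf : f ∈ P)
    (hlim : Tendsto (fun n => avg ν n * f) atTop (𝓝 0)) :
    ∃ b ∈ Q, ∃ y ∈ P, f = b * y := by
  have hex : ∀ j : ℕ, ∃ n : ℕ, ‖avg ν n * f‖ ≤ (1 / 4 : ℝ) ^ j := by
    intro j
    have h1 : ∀ᶠ n in atTop, ‖avg ν n * f‖ < (1 / 4 : ℝ) ^ j := by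
      have h2 := hlim.norm
      rw [norm_zero] at h2
      exact h2.eventually_lt_const (by positivity)
    obtain ⟨n, hn⟩ := h1.exists
    exact ⟨n, hn.le⟩
  choose n hn using hex
  set a : ℕ → A := fun j => avg ν (n j) with ha_def
  have ha : ∀ j, ‖a j‖ ≤ 1 := fun j => norm_avg_le hν _
  obtain ⟨b, hbQ, hb⟩ := part_tendsto a ha Q hQ fun j => one_sub_avg_mem Q ν hQν _
  -- the inverses
  set g : ℕ → A := fun J => ∑' m : ℕ, (part a J) ^ m with hg_def
  have hg1 : ∀ J, (1 - part a J) * g J = 1 := fun J => mul_neg_geom_series _ (norm_part_lt a ha J)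
  have hg2 : ∀ J, g J * (1 - part a J) = 1 := fun J => geom_series_mul_neg _ (norm_part_lt a ha J)
  have hgn : ∀ J, ‖g J‖ ≤ 2 ^ J := fun J => norm_geom_le a ha J
  have hstep : ∀ J, part a (J + 1) = part a J + ((1 / 2 : ℂ) ^ (J + 1)) • a J := by
    intro J
    unfold part; rw [Finset.sum_range_succ]
  have hcomm : ∀ J, Commute (a J) (part a (J + 1)) := by
    intro J
    unfold part
    refine Commute.sum_right _ _ _ fun j _ => Commute.smul_right ?_ _
    exact commute_avg ν _ _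
  have hcomm2 : ∀ J, a J * g (J + 1) = g (J + 1) * a J := by
    intro J
    have h1 : a J * (1 - part a (J + 1)) = (1 - part a (J + 1)) * a J := by
      rw [mul_sub, sub_mul, mul_one, one_mul, (hcomm J).eq]
    calc a J * g (J + 1) = (g (J + 1) * (1 - part a (J + 1))) * (a J * g (J + 1)) := by
          rw [hg2, one_mul]
      _ = g (J + 1) * (((1 - part a (J + 1)) * a J) * g (J + 1)) := by simp only [mul_assoc]
      _ = g (J + 1) * ((a J * (1 - part a (J + 1))) * g (J + 1)) := by rw [h1]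
      _ = g (J + 1) * a J * ((1 - part a (J + 1)) * g (J + 1)) := by simp only [mul_assoc]
      _ = g (J + 1) * a J := by rw [hg1, mul_one]
  have hdiff : ∀ J, g (J + 1) - g J = ((1 / 2 : ℂ) ^ (J + 1)) • (g J * g (J + 1) * a J) := by
    intro J
    have h1 : g J * ((1 - part a J) - (1 - part a (J + 1))) * g (J + 1)
        = g (J + 1) - g J := by
      rw [mul_sub, sub_mul, hg2, one_mul, mul_assoc, hg1, mul_one]
    have h2 : (1 - part a J) - (1 - (part a J + ((1 / 2 : ℂ) ^ (J + 1)) • a J))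
        = ((1 / 2 : ℂ) ^ (J + 1)) • a J := by abel
    rw [← h1, mul_assoc (g J) (g (J + 1)) (a J), ← hcomm2 J, hstep J, h2, mul_smul_comm,
      smul_mul_assoc, mul_assoc]
  have hbound : ∀ J, dist (g J * f) (g (J + 1) * f) ≤ 1 * (1 / 2 : ℝ) ^ J := by
    intro J
    rw [dist_comm, dist_eq_norm, ← sub_mul, hdiff J, smul_mul_assoc, norm_smul, norm_pow]
    have h0 : ‖(1 / 2 : ℂ)‖ = 1 / 2 := by simp
    rw [h0]
    have h1 : ‖g J * g (J + 1) * a J * f‖ ≤ 2 ^ J * 2 ^ (J + 1) * (1 / 4 : ℝ) ^ J := by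
      calc ‖g J * g (J + 1) * a J * f‖ = ‖(g J * g (J + 1)) * (a J * f)‖ := by
            simp only [mul_assoc]
        _ ≤ ‖g J * g (J + 1)‖ * ‖a J * f‖ := norm_mul_le _ _
        _ ≤ (‖g J‖ * ‖g (J + 1)‖) * ‖a J * f‖ := by gcongr; exact norm_mul_le _ _
        _ ≤ (2 ^ J * 2 ^ (J + 1)) * (1 / 4 : ℝ) ^ J := by
            gcongr
            · exact hgn J
            · exact hgn (J + 1)
            · exact hn J
    have h2 : (1 / 2 : ℝ) ^ (J + 1) * (2 ^ J * 2 ^ (J + 1) * (1 / 4 : ℝ) ^ J) = (1 / 2 : ℝ) ^ J := by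
      have e1 : (1 / 2 : ℝ) ^ (J + 1) * 2 ^ (J + 1) = 1 := by
        rw [← mul_pow]; norm_num
      have e2 : (1 / 4 : ℝ) ^ J * 2 ^ J = (1 / 2 : ℝ) ^ J := by
        rw [← mul_pow]; norm_num
      calc (1 / 2 : ℝ) ^ (J + 1) * (2 ^ J * 2 ^ (J + 1) * (1 / 4 : ℝ) ^ J)
          = ((1 / 2 : ℝ) ^ (J + 1) * 2 ^ (J + 1)) * ((1 / 4 : ℝ) ^ J * 2 ^ J) := by ring
        _ = (1 / 2 : ℝ) ^ J := by rw [e1, e2, one_mul]
    rw [one_mul, ← h2]
    gcongr
  have hcau : CauchySeq fun J => g J * f :=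
    cauchySeq_of_le_geometric (1 / 2 : ℝ) 1 (by norm_num) hbound
  obtain ⟨y, hy⟩ := cauchySeq_tendsto_of_complete hcau
  refine ⟨b, hbQ, y, ?_, ?_⟩
  · exact hP.mem_of_tendsto hy (Eventually.of_forall fun J => hPm f hf _)
  · have h1 : Tendsto (fun J => (1 - part a J) * (g J * f)) atTop (𝓝 (b * y)) := hb.mul hy
    have h2 : ∀ J, (1 - part a J) * (g J * f) = f := by
      intro J; rw [← mul_assoc, hg1, one_mul]
    simp only [h2] at h1
    exact tendsto_nhds_unique tendsto_const_nhds h1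

end Pool.Agent.V5helper27.CI
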