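import Pool.Agent.V5helper27.CI.Factor

/-!
# The one-sided ideals attached to a contraction

`JR ν = {f | f * A_n → 0}` and `JL ν = {f | A_n * f → 0}`, `A_n` the Cesàro averages of the powers of `ν`.
-/

set_option autoImplicit false

namespace Pool.Agent.V5helper27.CI

open Filter Topology

variable {A : Type*} [NormedRing A] [NormedAlgebra ℂ A] [NormOneClass A]

/-- the left ideal `{f | f * A_n → 0}` -/
def JR (ν : A) : Submodule ℂ A where
  carrier := {f | Tendsto (fun n => f * avg ν n) atTop (𝓝 0)}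
  add_mem' := by
    intro a b ha hb
    have := Tendsto.add ha hb
    simp only [add_zero, ← add_mul] at this
    exact this
  zero_mem' := by simp
  smul_mem' := by
    intro c x hx
    have := Tendsto.const_smul hx c
    simp only [smul_zero, ← smul_mul_assoc] at this
    exact this

/-- the right ideal `{f | A_n * f → 0}` -/
def JL (ν : A) : Submodule ℂ A where
  carrier := {f | Tendsto (fun n => avg ν n * f) atTop (𝓝 0)}
  add_mem' := by
    intro a b ha hb
    have := Tendsto.add ha hb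
    simp only [add_zero, ← mul_add] at this
    exact this
  zero_mem' := by simp
  smul_mem' := by
    intro c x hx
    have := Tendsto.const_smul hx c
    simp only [smul_zero, ← mul_smul_comm] at this
    exact this

lemma mem_JR {ν f : A} : f ∈ JR ν ↔ Tendsto (fun n => f * avg ν n) atTop (𝓝 0) := Iff.rfl

lemma mem_JL {ν f : A} : f ∈ JL ν ↔ Tendsto (fun n => avg ν n * f) atTop (𝓝 0) := Iff.rfl

lemma isClosed_JR {ν : A} (hν : ‖ν‖ ≤ 1) : IsClosed (JR ν : Set A) := by
  refine isClosed_of_closure_subset fun f hf => ?_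
  change Tendsto (fun n => f * avg ν n) atTop (𝓝 0)
  rw [Metric.tendsto_atTop]
  intro ε hε
  obtain ⟨f', hf', hd⟩ := Metric.mem_closure_iff.mp hf (ε / 2) (by linarith)
  obtain ⟨N, hN⟩ := Metric.tendsto_atTop.mp (mem_JR.mp hf') (ε / 2) (by linarith)
  refine ⟨N, fun n hn => ?_⟩
  have h1 := hN n hn
  rw [dist_zero_right] at h1 ⊢
  rw [dist_eq_norm] at hd
  have h2 : f * avg ν n = (f - f') * avg ν n + f' * avg ν n := by rw [sub_mul]; abel
  rw [h2]
  have h3 : ‖(f - f') * avg ν n‖ ≤ ‖f - f'‖ := by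
    refine (norm_mul_le _ _).trans ?_
    have := norm_avg_le hν n
    nlinarith [norm_nonneg (f - f')]
  have h4 := norm_add_le ((f - f') * avg ν n) (f' * avg ν n)
  linarith

lemma isClosed_JL {ν : A} (hν : ‖ν‖ ≤ 1) : IsClosed (JL ν : Set A) := by
  refine isClosed_of_closure_subset fun f hf => ?_
  change Tendsto (fun n => avg ν n * f) atTop (𝓝 0)
  rw [Metric.tendsto_atTop]
  intro ε hε
  obtain ⟨f', hf', hd⟩ := Metric.mem_closure_iff.mp hf (ε / 2) (by linarith)
  obtain ⟨N, hN⟩ := Metric.tendsto_atTop.mp (mem_JL.mp hf') (ε / 2) (by linarith)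
  refine ⟨N, fun n hn => ?_⟩
  have h1 := hN n hn
  rw [dist_zero_right] at h1 ⊢
  rw [dist_eq_norm] at hd
  have h2 : avg ν n * f = avg ν n * (f - f') + avg ν n * f' := by rw [mul_sub]; abel
  rw [h2]
  have h3 : ‖avg ν n * (f - f')‖ ≤ ‖f - f'‖ := by
    refine (norm_mul_le _ _).trans ?_
    have := norm_avg_le hν n
    nlinarith [norm_nonneg (f - f')]
  have h4 := norm_add_le (avg ν n * (f - f')) (avg ν n * f')
  linarith

lemma norm_one_sub_mul_avg {ν : A} (hν : ‖ν‖ ≤ 1) (n : ℕ) :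
    ‖(1 - ν) * avg ν n‖ ≤ 2 / ((n + 1 : ℕ) : ℝ) := by
  unfold avg
  rw [mul_smul_comm, mul_neg_geom_sum, norm_smul, norm_inv, Complex.norm_natCast, div_eq_inv_mul]
  gcongr
  refine (norm_sub_le _ _).trans ?_
  rw [norm_one]
  have := norm_pow_le_one hν (n + 1)
  linarith

lemma one_sub_comm_avg (ν : A) (n : ℕ) : (1 - ν) * avg ν n = avg ν n * (1 - ν) := by
  unfold avg
  rw [mul_smul_comm, smul_mul_assoc, mul_neg_geom_sum, geom_sum_mul_neg]

lemma tendsto_one_sub {ν : A} (hν : ‖ν‖ ≤ 1) :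
    Tendsto (fun n => (1 - ν) * avg ν n) atTop (𝓝 0) := by
  refine squeeze_zero_norm (norm_one_sub_mul_avg hν) ?_
  have h1 : Tendsto (fun n : ℕ => (2 : ℝ) / (n : ℝ)) atTop (𝓝 0) :=
    tendsto_const_div_atTop_nhds_zero_nat 2
  exact h1.comp (tendsto_add_atTop_nat 1)

lemma mul_one_sub_mem_JR {ν : A} (hν : ‖ν‖ ≤ 1) (a : A) : a * (1 - ν) ∈ JR ν := by
  rw [mem_JR]
  have h := (tendsto_one_sub hν).const_mul a
  rw [mul_zero] at h
  refine h.congr fun n => ?_
  rw [mul_assoc]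

lemma one_sub_mul_mem_JL {ν : A} (hν : ‖ν‖ ≤ 1) (a : A) : (1 - ν) * a ∈ JL ν := by
  rw [mem_JL]
  have h := (tendsto_one_sub hν).mul_const a
  rw [zero_mul] at h
  refine h.congr fun n => ?_
  rw [one_sub_comm_avg, mul_assoc]

lemma sub_mul_pow_mem_JR {ν : A} (hν : ‖ν‖ ≤ 1) (a : A) (k : ℕ) : a - a * ν ^ k ∈ JR ν := by
  have h : a - a * ν ^ k = (a * ∑ i ∈ Finset.range k, ν ^ i) * (1 - ν) := by
    rw [mul_assoc, geom_sum_mul_neg, mul_sub, mul_one]
  rw [h]
  exact mul_one_sub_mem_JR hν _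

lemma sub_pow_mul_mem_JL {ν : A} (hν : ‖ν‖ ≤ 1) (a : A) (k : ℕ) : a - ν ^ k * a ∈ JL ν := by
  have h : a - ν ^ k * a = (1 - ν) * ((∑ i ∈ Finset.range k, ν ^ i) * a) := by
    rw [← mul_assoc, mul_neg_geom_sum, sub_mul, one_mul]
  rw [h]
  exact one_sub_mul_mem_JL hν _

end Pool.Agent.V5helper27.CI
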